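import Pool.Agent.Helper46.Holes.Arrange

/-!
# Triangle-free sets of the final arrangement are small
-/

namespace Pool.Agent.Helper46.Holes

variable {ι : Type} {z : ι → ℝ × ℝ} {Fc : Finset ι} {Ec : Finset (ι × ι)} {C : ℝ} {H : ℕ}
  {η : ℝ}

/-- The points of the final arrangement. -/
noncomputable def ZZ (e1 B e2 : ℕ) (z : ι → ℝ × ℝ) (η : ℝ) (p0 : ι) (x : KK (mid e1 B e2) p0) :
    ℝ × ℝ :=
  bl (V (e1 + B + e2)) (sV (e1 + B + e2)) (1/2) z η x.1

open Classical in
/-- The fibre of a set over a position. -/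
noncomputable def fib {e1 B e2 : ℕ} {p0 : ι} (X : Finset (KK (mid e1 B e2) p0))
    (j : Fin (e1 + B + e2)) : Finset (KK (mid e1 B e2) p0) :=
  X.filter (fun x => x.1.1 = j)

theorem mem_fib {e1 B e2 : ℕ} {p0 : ι} {X : Finset (KK (mid e1 B e2) p0)}
    {j : Fin (e1 + B + e2)} {x : KK (mid e1 B e2) p0} : x ∈ fib X j ↔ x ∈ X ∧ x.1.1 = j := by
  classical
  unfold fib
  rw [Finset.mem_filter]

theorem fib_card_single {e1 B e2 : ℕ} {p0 : ι} (X : Finset (KK (mid e1 B e2) p0))
    {j : Fin (e1 + B + e2)} (hj : j ∉ mid e1 B e2) : (fib X j).card ≤ 1 := by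
  rw [Finset.card_le_one]
  intro x hx y hy
  obtain ⟨hx1, hx2⟩ := mem_fib.mp hx
  obtain ⟨hy1, hy2⟩ := mem_fib.mp hy
  have hx3 : x.1.2 = p0 := x.2.resolve_left (by rw [hx2]; exact hj)
  have hy3 : y.1.2 = p0 := y.2.resolve_left (by rw [hy2]; exact hj)
  apply Subtype.ext
  exact Prod.ext (by rw [hx2, hy2]) (by rw [hx3, hy3])

theorem fib_card_le {e1 B e2 : ℕ} {p0 : ι} (hz : IsCluster z Fc Ec 1 C H) (hη : 0 < η)
    (hH : 1 ≤ H) (X : Finset (KK (mid e1 B e2) p0)) (hX : TriFree (ZZ e1 B e2 z η p0) X)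
    (j : Fin (e1 + B + e2)) : (fib X j).card ≤ H := by
  classical
  by_cases hj : j ∈ mid e1 B e2
  · have c3 : (fib X j).card = ((fib X j).image (fun x => x.1.2)).card := by
      symm
      apply Finset.card_image_of_injOn
      intro x hx y hy hxy
      have hx' := (mem_fib.mp hx).2
      have hy' := (mem_fib.mp hy).2
      apply Subtype.ext
      exact Prod.ext (by rw [hx', hy']) hxy
    rw [c3]
    apply hz.hole
    intro a ha b hb c hc d hin
    obtain ⟨a', ha', rfl⟩ := Finset.mem_image.mp ha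
    obtain ⟨b', hb', rfl⟩ := Finset.mem_image.mp hb
    obtain ⟨c', hc', rfl⟩ := Finset.mem_image.mp hc
    obtain ⟨ha1, ha2⟩ := mem_fib.mp ha'
    obtain ⟨hb1, hb2⟩ := mem_fib.mp hb'
    obtain ⟨hc1, hc2⟩ := mem_fib.mp hc'
    refine hX a' ha1 b' hb1 c' hc1 ⟨(j, d), Or.inl hj⟩ ?_
    have := bl_tri_same (V (e1 + B + e2)) (sV (e1 + B + e2)) z (show (0:ℝ) < 1/2 by norm_num)
      hη j a'.1.2 b'.1.2 c'.1.2 d hin
    have ea : a'.1 = (j, a'.1.2) := by rw [← ha2]
    have eb : b'.1 = (j, b'.1.2) := by rw [← hb2]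
    have ec : c'.1 = (j, c'.1.2) := by rw [← hc2]
    unfold ZZ
    rw [ea, eb, ec]
    exact this
  · exact (fib_card_single X hj).trans hH

theorem fib_card_two {e1 B e2 : ℕ} {p0 : ι} [Finite ι] (hz : IsCluster z Fc Ec 1 C H)
    (hC : 2 * ((e1 + B + e2 : ℕ) : ℝ) ≤ C) (hf : Facts (e1 + B + e2) z η)
    (X : Finset (KK (mid e1 B e2) p0)) (hX : TriFree (ZZ e1 B e2 z η p0) X)
    {j : Fin (e1 + B + e2)} (hj : j ∈ mid e1 B e2) (hl : ∃ l ∈ X, l.1.1 < j)
    (hr : ∃ r ∈ X, j < r.1.1) : (fib X j).card ≤ 2 := by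
  classical
  obtain ⟨l, hlX, hl⟩ := hl
  obtain ⟨r, hrX, hr⟩ := hr
  have hfront : ∀ y ∈ fib X j, y.1.2 ∈ Fc := by
    intro y hy
    by_contra hcon
    obtain ⟨hy1, hy2⟩ := mem_fib.mp hy
    obtain ⟨d, hd⟩ := hidden_tri (a := l.1.2) (c := r.1.2) hz hC hf hl hr hcon
    refine hX l hlX r hrX y hy1 ⟨(j, d), Or.inl hj⟩ ?_
    have ey : y.1 = (j, y.1.2) := by rw [← hy2]
    unfold ZZ
    rw [ey]
    exact hd
  by_contra hcard
  push Not at hcard
  set S := (fib X j).image (fun x => x.1.2) with hS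
  have hScard : S.card = (fib X j).card := by
    apply Finset.card_image_of_injOn
    intro x hx y hy hxy
    have hx' := (mem_fib.mp hx).2
    have hy' := (mem_fib.mp hy).2
    apply Subtype.ext
    exact Prod.ext (by rw [hx', hy']) hxy
  have hSF : ∀ a ∈ S, a ∈ Fc := by
    intro a ha
    obtain ⟨y, hy, rfl⟩ := Finset.mem_image.mp ha
    exact hfront y hy
  have hlift : ∀ a ∈ S, (⟨(j, a), Or.inl hj⟩ : KK (mid e1 B e2) p0) ∈ X := by
    intro a ha
    obtain ⟨y, hy, rfl⟩ := Finset.mem_image.mp ha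
    obtain ⟨hy1, hy2⟩ := mem_fib.mp hy
    have : (⟨(j, y.1.2), Or.inl hj⟩ : KK (mid e1 B e2) p0) = y := by
      apply Subtype.ext
      simp only
      rw [← hy2]
    rw [this]
    exact hy1
  have hne : S.Nonempty := by
    rw [← Finset.card_pos]; omega
  obtain ⟨y1, hy1, hy1'⟩ := Finset.exists_min_image S (fun a => (z a).1) hne
  obtain ⟨y3, hy3, hy3'⟩ := Finset.exists_max_image S (fun a => (z a).1) hne
  obtain ⟨y2, hy2, hy21, hy23⟩ : ∃ y2 ∈ S, y2 ≠ y1 ∧ y2 ≠ y3 := by
    by_contra hcon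
    push Not at hcon
    have hsub : S ⊆ {y1, y3} := by
      intro a ha
      rw [Finset.mem_insert, Finset.mem_singleton]
      by_cases h : a = y1
      · exact Or.inl h
      · exact Or.inr (hcon a ha h)
    have := Finset.card_le_card hsub
    have := Finset.card_le_two (a := y1) (b := y3)
    omega
  have hdist : ∀ a ∈ S, ∀ b ∈ S, a ≠ b → (z a).1 ≠ (z b).1 := by
    intro a ha b hb hab heq
    obtain ⟨s, _, hs⟩ := hz.front a (hSF a ha)
    obtain ⟨s', _, hs'⟩ := hz.front b (hSF b hb)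
    have g1 := hs b (Ne.symm hab)
    have g2 := hs' a hab
    rw [heq] at g1 g2
    simp at g1 g2
    linarith
  have h12 : (z y1).1 < (z y2).1 := lt_of_le_of_ne (hy1' y2 hy2) (hdist y1 hy1 y2 hy2 hy21.symm)
  have h23 : (z y2).1 < (z y3).1 := lt_of_le_of_ne (hy3' y2 hy2) (hdist y2 hy2 y3 hy3 hy23)
  have := front_tri (a := l.1.2) hz hf hl (hSF y2 hy2) (hSF y3 hy3) h12 h23
  exact hX _ (hlift y3 hy3) _ (hlift y1 hy1) l hlX ⟨(j, y2), Or.inl hj⟩ this

theorem arr_hole {e1 B e2 : ℕ} {p0 : ι} [Finite ι] (hz : IsCluster z Fc Ec 1 C H)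
    (hC : 2 * ((e1 + B + e2 : ℕ) : ℝ) ≤ C) (hf : Facts (e1 + B + e2) z η)
    (h1 : H ≤ e1) (h2 : H ≤ e2) (hH : 1 ≤ H)
    (X : Finset (KK (mid e1 B e2) p0)) (hX : TriFree (ZZ e1 B e2 z η p0) X) :
    X.card ≤ e1 + 2 * B + e2 := by
  classical
  set XL := X.filter (fun x => x.1.1.val < e1) with hXL
  set XR := X.filter (fun x => e1 + B ≤ x.1.1.val) with hXR
  set XM := X.filter (fun x => x.1.1 ∈ mid e1 B e2) with hXM
  set S1 := (mid e1 B e2).filter (fun j => 2 < (fib X j).card ∧ ∀ x ∈ X, j ≤ x.1.1) with hS1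
  set S2 := (mid e1 B e2).filter (fun j => 2 < (fib X j).card ∧ ∀ x ∈ X, x.1.1 ≤ j) with hS2
  have hsub : X ⊆ XL ∪ (XM ∪ XR) := by
    intro x hx
    rw [Finset.mem_union, Finset.mem_union]
    have := x.1.1.2
    by_cases ha : x.1.1.val < e1
    · left; exact Finset.mem_filter.mpr ⟨hx, ha⟩
    · by_cases hb : x.1.1.val < e1 + B
      · right; left
        exact Finset.mem_filter.mpr ⟨hx, Finset.mem_filter.mpr ⟨Finset.mem_univ _, by omega, hb⟩⟩
      · right; right; exact Finset.mem_filter.mpr ⟨hx, by omega⟩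
  have hc1 : X.card ≤ XL.card + (XM.card + XR.card) :=
    (Finset.card_le_card hsub).trans ((Finset.card_union_le _ _).trans
      (Nat.add_le_add_left (Finset.card_union_le _ _) _))
  have hinj : ∀ x y : KK (mid e1 B e2) p0, x.1.1 ∉ mid e1 B e2 → x.1.1 = y.1.1 → x = y := by
    intro x y hx hxy
    have hx3 : x.1.2 = p0 := x.2.resolve_left hx
    have hy3 : y.1.2 = p0 := y.2.resolve_left (by rw [← hxy]; exact hx)
    apply Subtype.ext
    exact Prod.ext hxy (by rw [hx3, hy3])
  have hXLc : XL.card ≤ e1 := by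
    have : XL.card ≤ (Finset.range e1).card := by
      apply Finset.card_le_card_of_injOn (fun x => x.1.1.val)
      · intro x hx
        have := (Finset.mem_filter.mp hx).2
        simpa using this
      · intro x hx y hy hxy
        have hx' := (Finset.mem_filter.mp hx).2
        apply hinj x y _ (Fin.ext hxy)
        intro hm
        have := (Finset.mem_filter.mp hm).2
        omega
    simpa using this
  have hXRc : XR.card ≤ e2 := by
    have : XR.card ≤ (Finset.Ico (e1 + B) (e1 + B + e2)).card := by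
      apply Finset.card_le_card_of_injOn (fun x => x.1.1.val)
      · intro x hx
        have := (Finset.mem_filter.mp hx).2
        have h3 := x.1.1.2
        simp only [Finset.coe_Ico, Set.mem_Ico]
        exact ⟨this, h3⟩
      · intro x hx y hy hxy
        have hx' := (Finset.mem_filter.mp hx).2
        apply hinj x y _ (Fin.ext hxy)
        intro hm
        have := (Finset.mem_filter.mp hm).2
        omega
    simpa using this
  have hS1c : S1.card ≤ 1 := by
    rw [Finset.card_le_one]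
    intro j hj j' hj'
    obtain ⟨_, hj1, hj2⟩ := Finset.mem_filter.mp hj
    obtain ⟨_, hj1', hj2'⟩ := Finset.mem_filter.mp hj'
    obtain ⟨x, hx⟩ : (fib X j).Nonempty := by rw [← Finset.card_pos]; omega
    obtain ⟨x', hx'⟩ : (fib X j').Nonempty := by rw [← Finset.card_pos]; omega
    obtain ⟨a1, a2⟩ := mem_fib.mp hx
    obtain ⟨a1', a2'⟩ := mem_fib.mp hx'
    apply le_antisymm
    · rw [← a2']; exact hj2 x' a1'
    · rw [← a2]; exact hj2' x a1
  have hS2c : S2.card ≤ 1 := by
    rw [Finset.card_le_one]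
    intro j hj j' hj'
    obtain ⟨_, hj1, hj2⟩ := Finset.mem_filter.mp hj
    obtain ⟨_, hj1', hj2'⟩ := Finset.mem_filter.mp hj'
    obtain ⟨x, hx⟩ : (fib X j).Nonempty := by rw [← Finset.card_pos]; omega
    obtain ⟨x', hx'⟩ : (fib X j').Nonempty := by rw [← Finset.card_pos]; omega
    obtain ⟨a1, a2⟩ := mem_fib.mp hx
    obtain ⟨a1', a2'⟩ := mem_fib.mp hx'
    apply le_antisymm
    · rw [← a2]; exact hj2' x a1
    · rw [← a2']; exact hj2 x' a1'
  have hL : XL.card + H * S1.card ≤ e1 := by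
    by_cases hne : XL.Nonempty
    · obtain ⟨x, hx⟩ := hne
      obtain ⟨hx1, hx2⟩ := Finset.mem_filter.mp hx
      have : S1 = ∅ := by
        rw [Finset.eq_empty_iff_forall_notMem]
        intro j hj
        obtain ⟨a1, _, a3⟩ := Finset.mem_filter.mp hj
        have a4 := a3 x hx1
        have a5 := (Finset.mem_filter.mp a1).2
        have a6 : j.val ≤ x.1.1.val := a4
        omega
      rw [this]; simpa using hXLc
    · rw [Finset.not_nonempty_iff_eq_empty] at hne
      rw [hne, Finset.card_empty]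
      nlinarith
  have hR : XR.card + H * S2.card ≤ e2 := by
    by_cases hne : XR.Nonempty
    · obtain ⟨x, hx⟩ := hne
      obtain ⟨hx1, hx2⟩ := Finset.mem_filter.mp hx
      have : S2 = ∅ := by
        rw [Finset.eq_empty_iff_forall_notMem]
        intro j hj
        obtain ⟨a1, _, a3⟩ := Finset.mem_filter.mp hj
        have a4 := a3 x hx1
        have a5 := (Finset.mem_filter.mp a1).2
        have a6 : x.1.1.val ≤ j.val := a4
        omega
      rw [this]; simpa using hXRc
    · rw [Finset.not_nonempty_iff_eq_empty] at hne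
      rw [hne, Finset.card_empty]
      nlinarith
  have hM : XM.card ≤ 2 * B + H * S1.card + H * S2.card := by
    have e : XM.card = ∑ j ∈ mid e1 B e2, (XM.filter (fun x => x.1.1 = j)).card :=
      Finset.card_eq_sum_card_fiberwise (fun x hx => (Finset.mem_filter.mp hx).2)
    have hb : ∀ j ∈ mid e1 B e2, (XM.filter (fun x => x.1.1 = j)).card ≤
        2 + (if j ∈ S1 then H else 0) + (if j ∈ S2 then H else 0) := by
      intro j hj
      have hsub2 : XM.filter (fun x => x.1.1 = j) ⊆ fib X j := by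
        intro x hx
        obtain ⟨hx1, hx2⟩ := Finset.mem_filter.mp hx
        exact mem_fib.mpr ⟨(Finset.mem_filter.mp hx1).1, hx2⟩
      refine (Finset.card_le_card hsub2).trans ?_
      by_cases h3 : (fib X j).card ≤ 2
      · omega
      · have h4 := fib_card_le hz hf.pos hH X hX j
        by_cases hl : ∃ l ∈ X, l.1.1 < j
        · by_cases hr : ∃ r ∈ X, j < r.1.1
          · exact absurd (fib_card_two hz hC hf X hX hj hl hr) h3
          · push Not at hr
            have : j ∈ S2 := Finset.mem_filter.mpr ⟨hj, by omega, hr⟩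
            rw [if_pos this]
            omega
        · push Not at hl
          have : j ∈ S1 := Finset.mem_filter.mpr ⟨hj, by omega, hl⟩
          rw [if_pos this]
          omega
    rw [e]
    refine (Finset.sum_le_sum hb).trans ?_
    rw [Finset.sum_add_distrib, Finset.sum_add_distrib, Finset.sum_const, card_mid,
      ← Finset.sum_filter, ← Finset.sum_filter, Finset.sum_const, Finset.sum_const]
    have hf1 : ((mid e1 B e2).filter (fun j => j ∈ S1)).card ≤ S1.card :=
      Finset.card_le_card (fun j hj => (Finset.mem_filter.mp hj).2)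
    have hf2 : ((mid e1 B e2).filter (fun j => j ∈ S2)).card ≤ S2.card :=
      Finset.card_le_card (fun j hj => (Finset.mem_filter.mp hj).2)
    simp only [smul_eq_mul]
    nlinarith [Nat.mul_le_mul_right H hf1, Nat.mul_le_mul_right H hf2]
  omega

end Pool.Agent.Helper46.Holes
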