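import Pool.Agent.Helper46.Holes.ArrHole

/-!
# Many extremal holes of the final arrangement
-/

namespace Pool.Agent.Helper46.Holes

variable {ι : Type} [Fintype ι] {z : ι → ℝ × ℝ} {Fc : Finset ι} {Ec : Finset (ι × ι)} {C : ℝ}
  {H : ℕ} {η : ℝ}

open Classical in
/-- The extremal set given by a choice of a front edge in each middle cluster. -/
noncomputable def Xe {e1 B e2 : ℕ} {p0 : ι} (e : Fin (e1 + B + e2) → ι × ι) :
    Finset (KK (mid e1 B e2) p0) :=
  Finset.univ.filter (fun x => x.1.2 = (e x.1.1).1 ∨ x.1.2 = (e x.1.1).2)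

omit [Fintype ι] in
/-- Admissible choices. -/
def Good {e1 B e2 : ℕ} (Ec : Finset (ι × ι)) (p0 : ι) (e : Fin (e1 + B + e2) → ι × ι) : Prop :=
  ∀ i, (i ∈ mid e1 B e2 → e i ∈ Ec) ∧ (i ∉ mid e1 B e2 → e i = (p0, p0))

theorem mem_Xe {e1 B e2 : ℕ} {p0 : ι} {e : Fin (e1 + B + e2) → ι × ι}
    {x : KK (mid e1 B e2) p0} : x ∈ Xe e ↔ (x.1.2 = (e x.1.1).1 ∨ x.1.2 = (e x.1.1).2) := by
  classical
  unfold Xe
  simp

theorem Xe_card {e1 B e2 : ℕ} {p0 : ι} (hz : IsCluster z Fc Ec 1 C H)
    {e : Fin (e1 + B + e2) → ι × ι} (he : Good Ec p0 e) :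
    (Xe e : Finset (KK (mid e1 B e2) p0)).card = e1 + 2 * B + e2 := by
  classical
  have h1 : (Xe e : Finset (KK (mid e1 B e2) p0)).card =
      ∑ j : Fin (e1 + B + e2), (fib (Xe e : Finset (KK (mid e1 B e2) p0)) j).card := by
    have := Finset.card_eq_sum_card_fiberwise (s := (Xe e : Finset (KK (mid e1 B e2) p0)))
      (f := fun x => x.1.1) (t := Finset.univ) (fun x _ => Finset.mem_coe.mpr (Finset.mem_univ _))
    rw [this]
    rfl
  have h2 : ∀ j : Fin (e1 + B + e2), (fib (Xe e : Finset (KK (mid e1 B e2) p0)) j).card =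
      1 + (if j ∈ mid e1 B e2 then 1 else 0) := by
    intro j
    by_cases hj : j ∈ mid e1 B e2
    · rw [if_pos hj]
      have hE := (he j).1 hj
      have hne : (e j).1 ≠ (e j).2 := by
        intro h
        have := (hz.edge (e j) hE).1
        rw [h] at this
        exact lt_irrefl _ this
      have hfib : fib (Xe e : Finset (KK (mid e1 B e2) p0)) j =
          {⟨(j, (e j).1), Or.inl hj⟩, ⟨(j, (e j).2), Or.inl hj⟩} := by
        ext x
        rw [mem_fib, mem_Xe, Finset.mem_insert, Finset.mem_singleton]
        constructor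
        · rintro ⟨h3, rfl⟩
          rcases h3 with h3 | h3
          · left; apply Subtype.ext; exact Prod.ext rfl h3
          · right; apply Subtype.ext; exact Prod.ext rfl h3
        · rintro (rfl | rfl)
          · exact ⟨Or.inl rfl, rfl⟩
          · exact ⟨Or.inr rfl, rfl⟩
      rw [hfib, Finset.card_pair]
      intro h
      apply hne
      exact congrArg (fun x => x.1.2) h
    · rw [if_neg hj]
      have hE := (he j).2 hj
      have hfib : fib (Xe e : Finset (KK (mid e1 B e2) p0)) j = {⟨(j, p0), Or.inr rfl⟩} := by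
        ext x
        rw [mem_fib, mem_Xe, Finset.mem_singleton]
        constructor
        · rintro ⟨h3, rfl⟩
          apply Subtype.ext
          exact Prod.ext rfl (x.2.resolve_left hj)
        · rintro rfl
          refine ⟨Or.inl ?_, rfl⟩
          simp only
          rw [hE]
      rw [hfib, Finset.card_singleton]
  rw [h1, Finset.sum_congr rfl (fun j _ => h2 j), Finset.sum_add_distrib, Finset.sum_const,
    Finset.card_univ, Fintype.card_fin, ← Finset.sum_filter, Finset.sum_const]
  have h3 : (Finset.univ.filter (fun j => j ∈ mid e1 B e2)) = mid e1 B e2 := by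
    ext j; simp
  rw [h3, card_mid]
  simp only [smul_eq_mul, mul_one]
  ring

theorem Xe_inj {e1 B e2 : ℕ} {p0 : ι} (hz : IsCluster z Fc Ec 1 C H)
    {e e' : Fin (e1 + B + e2) → ι × ι} (he : Good Ec p0 e) (he' : Good Ec p0 e')
    (h : (Xe e : Finset (KK (mid e1 B e2) p0)) = Xe e') : e = e' := by
  funext i
  by_cases hi : i ∈ mid e1 B e2
  · have h1 : (⟨(i, (e i).1), Or.inl hi⟩ : KK (mid e1 B e2) p0) ∈
        (Xe e' : Finset (KK (mid e1 B e2) p0)) := by
      rw [← h, mem_Xe]; exact Or.inl rfl
    have h2 : (⟨(i, (e i).2), Or.inl hi⟩ : KK (mid e1 B e2) p0) ∈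
        (Xe e' : Finset (KK (mid e1 B e2) p0)) := by
      rw [← h, mem_Xe]; exact Or.inr rfl
    rw [mem_Xe] at h1 h2
    simp only at h1 h2
    have g1 := (hz.edge (e i) ((he i).1 hi)).1
    have g2 := (hz.edge (e' i) ((he' i).1 hi)).1
    rcases h1 with h1 | h1 <;> rcases h2 with h2 | h2
    · rw [h1, h2] at g1; exact absurd g1 (lt_irrefl _)
    · exact Prod.ext h1 h2
    · rw [h1, h2] at g1; exact absurd (g1.trans g2) (lt_irrefl _)
    · rw [h1, h2] at g1; exact absurd g1 (lt_irrefl _)
  · rw [(he i).2 hi, (he' i).2 hi]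

theorem Xe_holeLike {e1 B e2 : ℕ} {p0 : ι} (hz : IsCluster z Fc Ec 1 C H)
    (hf : Facts (e1 + B + e2) z η) {e : Fin (e1 + B + e2) → ι × ι} (he : Good Ec p0 e) :
    HoleLike (ZZ e1 B e2 z η p0) (Xe e) := by
  classical
  intro p
  have hη := hf.pos
  by_cases hp : p.1.1 ∈ mid e1 B e2
  · set i := p.1.1 with hi
    have hE := (he i).1 hp
    obtain ⟨g1, g2, g3⟩ := hz.edge (e i) hE
    have g4 := abs_lt.mp g2
    rw [one_mul] at g4
    by_cases h1 : p.1.2 = (e i).1
    · refine ⟨-(2 * (i.val:ℝ)) + 1/2, -1, ?_⟩
      intro y hy hyp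
      have hy' := mem_Xe.mp hy
      by_cases hyi : y.1.1 = i
      · rw [hyi] at hy'
        have hy2 : y.1.2 = (e i).2 := by
          rcases hy' with h | h
          · exfalso; apply hyp; apply Subtype.ext
            exact Prod.ext hyi (by rw [h, h1])
          · exact h
        have ey : y.1 = (i, (e i).2) := Prod.ext hyi hy2
        have ep : p.1 = (i, (e i).1) := Prod.ext rfl h1
        unfold ZZ
        rw [ey, ep]
        unfold bl off sV
        simp only
        have : 0 < η * ((1/2) * ((z (e i).2).1 - (z (e i).1).1) -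
            (1/2) * ((z (e i).2).2 - (z (e i).1).2)) := by
          have : 0 < (1/2) * ((z (e i).2).1 - (z (e i).1).1) -
            (1/2) * ((z (e i).2).2 - (z (e i).1).2) := by linarith
          positivity
        linarith
      · have := hf.lin (1/2) (Or.inr (Or.inl rfl)) i y.1.1 p.1.2 y.1.2 (Ne.symm hyi)
        unfold ZZ
        have ep : p.1 = (i, p.1.2) := Prod.ext rfl rfl
        rw [ep]
        linarith
    · by_cases h2 : p.1.2 = (e i).2
      · refine ⟨-(2 * (i.val:ℝ)) - 1/2, -1, ?_⟩
        intro y hy hyp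
        have hy' := mem_Xe.mp hy
        by_cases hyi : y.1.1 = i
        · rw [hyi] at hy'
          have hy2 : y.1.2 = (e i).1 := by
            rcases hy' with h | h
            · exact h
            · exfalso; apply hyp; apply Subtype.ext
              exact Prod.ext hyi (by rw [h, h2])
          have ey : y.1 = (i, (e i).1) := Prod.ext hyi hy2
          have ep : p.1 = (i, (e i).2) := Prod.ext rfl h2
          unfold ZZ
          rw [ey, ep]
          unfold bl off sV
          simp only
          have : 0 < η * ((1/2) * ((z (e i).2).1 - (z (e i).1).1) +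
              (1/2) * ((z (e i).2).2 - (z (e i).1).2)) := by
            have : 0 < (1/2) * ((z (e i).2).1 - (z (e i).1).1) +
              (1/2) * ((z (e i).2).2 - (z (e i).1).2) := by linarith
            positivity
          linarith
        · have := hf.lin (-(1/2)) (Or.inr (Or.inr rfl)) i y.1.1 p.1.2 y.1.2 (Ne.symm hyi)
          unfold ZZ
          have ep : p.1 = (i, p.1.2) := Prod.ext rfl rfl
          rw [ep]
          linarith
      · -- a point not in the set
        set A := bl (V (e1 + B + e2)) (sV (e1 + B + e2)) (1/2) z η (i, (e i).1) with hA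
        set A' := bl (V (e1 + B + e2)) (sV (e1 + B + e2)) (1/2) z η (i, (e i).2) with hA'
        refine ⟨A'.2 - A.2, -(A'.1 - A.1), ?_⟩
        intro y hy hyp
        have hy' := mem_Xe.mp hy
        have hpos : 0 < ori A A' (ZZ e1 B e2 z η p0 p) := by
          unfold ZZ
          have ep : p.1 = (i, p.1.2) := Prod.ext rfl rfl
          rw [ep, hA, hA', bl_same]
          have := g3 p.1.2 h1 h2
          positivity
        have hle : ori A A' (ZZ e1 B e2 z η p0 y) ≤ 0 := by
          by_cases hyi : y.1.1 = i
          · rw [hyi] at hy'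
            rcases hy' with h | h
            · have ey : y.1 = (i, (e i).1) := Prod.ext hyi h
              unfold ZZ
              rw [ey, ← hA]
              unfold ori
              simp
            · have ey : y.1 = (i, (e i).2) := Prod.ext hyi h
              unfold ZZ
              rw [ey, ← hA']
              unfold ori
              linarith
          · have h3 : 0 < ori A' A (ZZ e1 B e2 z η p0 y) := by
              have := hf.pair i y.1.1 (e i).2 (e i).1 y.1.2 (by
                have h4 := abs_sub_ge_one (Ne.symm hyi)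
                set R := (y.1.1.val : ℝ) - i.val with hR
                set X1 := (z (e i).2).1 - (z (e i).1).1 with hX1
                set Y1 := (z (e i).2).2 - (z (e i).1).2 with hY1
                have e5 : R * (R * ((z (e i).1).1 - (z (e i).2).1) +
                    (1/2) * ((z (e i).1).2 - (z (e i).2).2)) = -(R ^ 2 * X1 + (1/2) * (R * Y1)) := by
                  rw [hX1, hY1]; ring
                rw [e5]
                have h6 : |R| * |R| = R ^ 2 := by rw [← sq, sq_abs]
                have h7 : |R * Y1| ≤ |R| * X1 := by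
                  rw [abs_mul]
                  apply mul_le_mul_of_nonneg_left _ (abs_nonneg _)
                  rw [abs_le]; constructor <;> linarith
                have h8 := (abs_le.mp h7).1
                have h9 : 0 < X1 := by rw [hX1]; linarith
                have h10 : |R| * X1 ≤ R ^ 2 * X1 := by
                  rw [← h6]
                  apply mul_le_mul_of_nonneg_right _ h9.le
                  nlinarith
                have h11 : 0 < |R| * X1 := by
                  have : 0 < |R| := by linarith
                  positivity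
                linarith)
              exact this
            have h4 : ori A' A (ZZ e1 B e2 z η p0 y) = - ori A A' (ZZ e1 B e2 z η p0 y) := by
              unfold ori; ring
            linarith
        unfold ori at hpos hle
        nlinarith
  · refine ⟨-(2 * (p.1.1.val:ℝ)), -1, ?_⟩
    intro y hy hyp
    have hne : p.1.1 ≠ y.1.1 := by
      intro h
      apply hyp
      have hp2 : p.1.2 = p0 := p.2.resolve_left hp
      have hy2 : y.1.2 = p0 := y.2.resolve_left (by rw [← h]; exact hp)
      apply Subtype.ext
      exact Prod.ext h.symm (by rw [hp2, hy2])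
    have := hf.lin 0 (Or.inl rfl) p.1.1 y.1.1 p.1.2 y.1.2 hne
    unfold ZZ
    simp only [Prod.mk.eta] at this ⊢
    linarith

theorem arrange (hz : IsCluster z Fc Ec 1 C H) (e1 B e2 : ℕ) (h1 : H ≤ e1) (h2 : H ≤ e2)
    (hH : 1 ≤ H) (hC : 2 * ((e1 + B + e2 : ℕ) : ℝ) ≤ C) (p0 : ι) :
    ∃ (K : Type) (_ : Fintype K) (Z : K → ℝ × ℝ) (XX : Finset (Finset K)),
      Fintype.card K ≤ (e1 + B + e2) + B * Fintype.card ι ∧
      (∀ X : Finset K, TriFree Z X → X.card ≤ e1 + 2 * B + e2) ∧
      (∀ X ∈ XX, X.card = e1 + 2 * B + e2 ∧ HoleLike Z X) ∧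
      Ec.card ^ B ≤ XX.card := by
  classical
  obtain ⟨η, hf⟩ := facts_exist (e1 + B + e2) z
  have hgood : ∀ e ∈ Fintype.piFinset (fun i : Fin (e1 + B + e2) =>
      if i ∈ mid e1 B e2 then Ec else {(p0, p0)}), Good Ec p0 e := by
    intro e he i
    have := Fintype.mem_piFinset.mp he i
    constructor
    · intro hi; rwa [if_pos hi] at this
    · intro hi; rw [if_neg hi] at this; exact Finset.mem_singleton.mp this
  refine ⟨KK (mid e1 B e2) p0, inferInstance, ZZ e1 B e2 z η p0,
    (Fintype.piFinset (fun i : Fin (e1 + B + e2) =>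
      if i ∈ mid e1 B e2 then Ec else {(p0, p0)})).image Xe, ?_, ?_, ?_, ?_⟩
  · refine (card_KK _ _).trans ?_
    rw [card_mid, Fintype.card_fin]
  · intro X hX
    exact arr_hole hz hC hf h1 h2 hH X hX
  · intro X hX
    obtain ⟨e, he, rfl⟩ := Finset.mem_image.mp hX
    exact ⟨Xe_card hz (hgood e he), Xe_holeLike hz hf (hgood e he)⟩
  · rw [Finset.card_image_of_injOn, Fintype.card_piFinset]
    · have : ∀ i : Fin (e1 + B + e2), (if i ∈ mid e1 B e2 then Ec else {(p0, p0)}).card =
          if i ∈ mid e1 B e2 then Ec.card else 1 := by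
        intro i; split_ifs <;> simp
      rw [Finset.prod_congr rfl (fun i _ => this i), ← Finset.prod_filter, Finset.prod_const]
      have h3 : (Finset.univ.filter (fun j => j ∈ mid e1 B e2)) = mid e1 B e2 := by
        ext j; simp
      rw [h3, card_mid]
    · intro e he e' he' h
      exact Xe_inj hz (hgood e he) (hgood e' he') h

end Pool.Agent.Helper46.Holes
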