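import Pool.Agent.Helper46.Holes.Iter

/-!
# Clusters on a convex chain: few large triangle-free sets, many extremal holes
-/

namespace Pool.Agent.Helper46.Holes

open Filter Topology

/-- The positions, on a concave parabola. -/
noncomputable def V (N : ℕ) (i : Fin N) : ℝ × ℝ := ((i.val : ℝ), -((i.val : ℝ) ^ 2))

/-- The slope of the chain at a position. -/
noncomputable def sV (N : ℕ) (i : Fin N) : ℝ := -(2 * (i.val : ℝ))

section
variable {ι : Type} [Finite ι]

theorem evC (N : ℕ) (z : ι → ℝ × ℝ) :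
    ∀ᶠ η in 𝓝[>] (0:ℝ), ∀ x y w : Fin N × ι, (x.1 < w.1 ∧ w.1 < y.1) →
      0 < ori (bl (V N) (sV N) (1/2) z η x) (bl (V N) (sV N) (1/2) z η y)
        (bl (V N) (sV N) (1/2) z η w) := by
  rw [eventually_all]; intro x
  rw [eventually_all]; intro y
  rw [eventually_all]; intro w
  apply ev_imp
  rintro ⟨h1, h2⟩
  apply ev_pos
  · simp only [ori, bl]; fun_prop
  · simp only [bl_zero, ori, V]
    have h3 : (x.1.val : ℝ) < w.1.val := by exact_mod_cast h1
    have h4 : (w.1.val : ℝ) < y.1.val := by exact_mod_cast h2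
    have e : ((y.1.val : ℝ) - x.1.val) * (-(w.1.val : ℝ) ^ 2 - -(x.1.val : ℝ) ^ 2) -
        (-(y.1.val : ℝ) ^ 2 - -(x.1.val : ℝ) ^ 2) * ((w.1.val : ℝ) - x.1.val) =
        ((y.1.val : ℝ) - x.1.val) * ((w.1.val : ℝ) - x.1.val) * ((y.1.val : ℝ) - w.1.val) := by
      ring
    rw [e]
    have a1 : 0 < (y.1.val : ℝ) - x.1.val := by linarith
    have a2 : 0 < (w.1.val : ℝ) - x.1.val := by linarith
    have a3 : 0 < (y.1.val : ℝ) - w.1.val := by linarith
    positivity

theorem abs_sub_ge_one {N : ℕ} {i j : Fin N} (h : i ≠ j) : 1 ≤ |(j.val : ℝ) - i.val| := by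
  have h1 : (j.val : ℤ) - i.val ≠ 0 := by
    intro h2
    apply h
    apply Fin.ext
    omega
  have h2 : (1:ℤ) ≤ |(j.val : ℤ) - i.val| := Int.one_le_abs h1
  exact_mod_cast h2

theorem evA (N : ℕ) (z : ι → ℝ × ℝ) {τ : ℝ} (hτ : |τ| < 1) :
    ∀ᶠ η in 𝓝[>] (0:ℝ), ∀ x y : Fin N × ι, x.1 ≠ y.1 →
      0 < -(((bl (V N) (sV N) (1/2) z η y).2 - (bl (V N) (sV N) (1/2) z η x).2) +
        2 * x.1.val * ((bl (V N) (sV N) (1/2) z η y).1 - (bl (V N) (sV N) (1/2) z η x).1)) +
        τ * ((bl (V N) (sV N) (1/2) z η y).1 - (bl (V N) (sV N) (1/2) z η x).1) := by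
  rw [eventually_all]; intro x
  rw [eventually_all]; intro y
  apply ev_imp
  intro h1
  apply ev_pos
  · simp only [bl]; fun_prop
  · simp only [bl_zero, V]
    have h2 := abs_sub_ge_one h1
    set R := (y.1.val : ℝ) - x.1.val with hR
    have e : -(-(y.1.val : ℝ) ^ 2 - -(x.1.val : ℝ) ^ 2 + 2 * x.1.val * R) + τ * R =
        R ^ 2 + τ * R := by rw [hR]; ring
    rw [e]
    have h3 : -(τ * R) ≤ |τ| * |R| := by
      rw [← abs_mul]; exact neg_le_abs _
    have h4 : |R| ^ 2 = R ^ 2 := sq_abs R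
    nlinarith [abs_nonneg τ]

omit [Finite ι] in
/-- The pair condition at the positions: leading coefficient. -/
theorem pair_coeff (N : ℕ) (z : ι → ℝ × ℝ) (i j : Fin N) (a b : ι) :
    ((off (sV N) (1/2) z (i, b)).1 - (off (sV N) (1/2) z (i, a)).1) *
        ((V N j).2 - (V N i).2) -
        ((off (sV N) (1/2) z (i, b)).2 - (off (sV N) (1/2) z (i, a)).2) *
        ((V N j).1 - (V N i).1) =
      -(((j.val : ℝ) - i.val) * (((j.val : ℝ) - i.val) * ((z b).1 - (z a).1) +
        (1/2) * ((z b).2 - (z a).2))) := by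
  unfold off V sV
  simp only
  ring

/-- Facts that hold for all small `η`. -/
structure Facts (N : ℕ) (z : ι → ℝ × ℝ) (η : ℝ) : Prop where
  pos : 0 < η
  pair : ∀ (i j : Fin N) (a b c : ι),
    ((j.val : ℝ) - i.val) * (((j.val : ℝ) - i.val) * ((z b).1 - (z a).1) +
      (1/2) * ((z b).2 - (z a).2)) < 0 →
    0 < ori (bl (V N) (sV N) (1/2) z η (i, a)) (bl (V N) (sV N) (1/2) z η (i, b))
      (bl (V N) (sV N) (1/2) z η (j, c))
  conv : ∀ (i j k : Fin N) (a b c : ι), i < j → j < k →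
    0 < ori (bl (V N) (sV N) (1/2) z η (i, a)) (bl (V N) (sV N) (1/2) z η (k, c))
      (bl (V N) (sV N) (1/2) z η (j, b))
  lin : ∀ τ : ℝ, (τ = 0 ∨ τ = 1/2 ∨ τ = -(1/2)) → ∀ (i j : Fin N) (a b : ι), i ≠ j →
      0 < -(((bl (V N) (sV N) (1/2) z η (j, b)).2 - (bl (V N) (sV N) (1/2) z η (i, a)).2) +
        2 * i.val * ((bl (V N) (sV N) (1/2) z η (j, b)).1 - (bl (V N) (sV N) (1/2) z η (i, a)).1)) +
        τ * ((bl (V N) (sV N) (1/2) z η (j, b)).1 - (bl (V N) (sV N) (1/2) z η (i, a)).1)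

theorem facts_exist (N : ℕ) (z : ι → ℝ × ℝ) : ∃ η, Facts N z η := by
  obtain ⟨η, h1, h2, h3, h4, h5, hη⟩ :=
    ((ev_pair (V N) (sV N) (1/2) z).and ((evC N z).and ((evA N z (τ := 0) (by simp)).and
      ((evA N z (τ := 1/2) (by rw [abs_of_pos] <;> norm_num)).and
      ((evA N z (τ := -(1/2)) (by rw [abs_neg, abs_of_pos] <;> norm_num)).and ev_self))))).exists
  refine ⟨η, hη, ?_, ?_, ?_⟩
  · intro i j a b c h
    apply h1 (i, a) (i, b) (j, c)
    refine ⟨rfl, ?_⟩
    rw [pair_coeff]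
    linarith
  · intro i j k a b c hij hjk
    exact h2 (i, a) (k, c) (j, b) ⟨hij, hjk⟩
  · intro τ hτ i j a b hij
    rcases hτ with rfl | rfl | rfl
    · exact h3 (i, a) (j, b) hij
    · exact h4 (i, a) (j, b) hij
    · exact h5 (i, a) (j, b) hij

end

section
variable {ι : Type} {z : ι → ℝ × ℝ} {Fc : Finset ι} {Ec : Finset (ι × ι)} {C : ℝ} {H N : ℕ}
  {η : ℝ}

theorem ori_cyc (a b c : ℝ × ℝ) : ori b c a = ori a b c := by
  unfold ori; ring

/-- A hidden point cannot be seen from both sides. -/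
theorem hidden_tri [Finite ι] (hz : IsCluster z Fc Ec 1 C H) (hC : 2 * (N : ℝ) ≤ C)
    (hf : Facts N z η) {i j k : Fin N} (hij : i < j) (hjk : j < k) {a b c : ι} (hb : b ∉ Fc) :
    ∃ d, InTri (bl (V N) (sV N) (1/2) z η (i, a)) (bl (V N) (sV N) (1/2) z η (k, c))
      (bl (V N) (sV N) (1/2) z η (j, b)) (bl (V N) (sV N) (1/2) z η (j, d)) := by
  obtain ⟨d, hd⟩ := hz.hid b hb
  have hi : (i.val : ℝ) < j.val := by exact_mod_cast hij
  have hk : (j.val : ℝ) < k.val := by exact_mod_cast hjk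
  have hkN : (k.val : ℝ) ≤ N := by exact_mod_cast k.2.le
  have hi0 : (0:ℝ) ≤ i.val := Nat.cast_nonneg _
  have hjN : (j.val : ℝ) ≤ N := by exact_mod_cast j.2.le
  have hj0 : (0:ℝ) ≤ j.val := Nat.cast_nonneg _
  have ha0 := abs_nonneg ((z d).1 - (z b).1)
  have hle := le_abs_self ((z d).1 - (z b).1)
  have hnle := neg_abs_le ((z d).1 - (z b).1)
  refine ⟨d, hf.conv i j k a d c hij hjk, ?_, ?_⟩
  · have : 0 < ori (bl (V N) (sV N) (1/2) z η (j, b)) (bl (V N) (sV N) (1/2) z η (j, d))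
        (bl (V N) (sV N) (1/2) z η (k, c)) := by
      apply hf.pair
      apply mul_neg_of_pos_of_neg (by linarith)
      nlinarith
    have e := ori_cyc (bl (V N) (sV N) (1/2) z η (k, c)) (bl (V N) (sV N) (1/2) z η (j, b))
      (bl (V N) (sV N) (1/2) z η (j, d))
    rw [e] at this
    exact this
  · have : 0 < ori (bl (V N) (sV N) (1/2) z η (j, d)) (bl (V N) (sV N) (1/2) z η (j, b))
        (bl (V N) (sV N) (1/2) z η (i, a)) := by
      apply hf.pair
      apply mul_neg_of_neg_of_pos (by linarith)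
      nlinarith
    have e := ori_cyc (bl (V N) (sV N) (1/2) z η (j, d)) (bl (V N) (sV N) (1/2) z η (j, b))
      (bl (V N) (sV N) (1/2) z η (i, a))
    rw [e]
    exact this

/-- Three front points of a cluster and a point to the left are not in free position. -/
theorem front_tri [Finite ι] (hz : IsCluster z Fc Ec 1 C H)
    (hf : Facts N z η) {i j : Fin N} (hij : i < j) {a y1 y2 y3 : ι} (h2 : y2 ∈ Fc)
    (h3 : y3 ∈ Fc) (h12 : (z y1).1 < (z y2).1) (h23 : (z y2).1 < (z y3).1) :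
    InTri (bl (V N) (sV N) (1/2) z η (j, y3)) (bl (V N) (sV N) (1/2) z η (j, y1))
      (bl (V N) (sV N) (1/2) z η (i, a)) (bl (V N) (sV N) (1/2) z η (j, y2)) := by
  have hi : (i.val : ℝ) < j.val := by exact_mod_cast hij
  have hR : (i.val : ℝ) - j.val ≤ -1 := by
    have : (i.val : ℤ) - j.val ≤ -1 := by
      have : i.val < j.val := hij
      omega
    exact_mod_cast this
  obtain ⟨s2, hs2, hs2'⟩ := hz.front y2 h2
  obtain ⟨s3, hs3, hs3'⟩ := hz.front y3 h3
  have n12 : y1 ≠ y2 := by rintro rfl; exact lt_irrefl _ h12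
  have n23 : y3 ≠ y2 := by rintro rfl; exact lt_irrefl _ h23
  have g1 := hs2' y1 n12
  have g3 := hs2' y3 n23
  have g2 := hs3' y2 (Ne.symm n23)
  rw [abs_lt] at hs2 hs3
  refine ⟨?_, ?_, ?_⟩
  · rw [bl_same]
    have hη := hf.pos
    have : 0 < ori (z y3) (z y1) (z y2) := by
      unfold ori
      have a1 : 0 < (z y2).1 - (z y1).1 := by linarith
      have a2 : 0 < (z y3).1 - (z y2).1 := by linarith
      have e : ((z y1).1 - (z y3).1) * ((z y2).2 - (z y3).2) -
          ((z y1).2 - (z y3).2) * ((z y2).1 - (z y3).1) =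
          ((z y3).1 - (z y2).1) * (((z y1).2 - (z y2).2) - s2 * ((z y1).1 - (z y2).1)) +
          ((z y2).1 - (z y1).1) * (((z y3).2 - (z y2).2) - s2 * ((z y3).1 - (z y2).1)) := by ring
      rw [e]
      have b1 : 0 < ((z y1).2 - (z y2).2) - s2 * ((z y1).1 - (z y2).1) := by linarith
      have b2 : 0 < ((z y3).2 - (z y2).2) - s2 * ((z y3).1 - (z y2).1) := by linarith
      positivity
    positivity
  · have : 0 < ori (bl (V N) (sV N) (1/2) z η (j, y2)) (bl (V N) (sV N) (1/2) z η (j, y1))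
        (bl (V N) (sV N) (1/2) z η (i, a)) := by
      apply hf.pair
      apply mul_neg_of_neg_of_pos (by linarith)
      nlinarith
    rw [ori_cyc (bl (V N) (sV N) (1/2) z η (j, y2)) (bl (V N) (sV N) (1/2) z η (j, y1))
      (bl (V N) (sV N) (1/2) z η (i, a))]
    exact this
  · have : 0 < ori (bl (V N) (sV N) (1/2) z η (j, y3)) (bl (V N) (sV N) (1/2) z η (j, y2))
        (bl (V N) (sV N) (1/2) z η (i, a)) := by
      apply hf.pair
      apply mul_neg_of_neg_of_pos (by linarith)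
      nlinarith
    rw [← ori_cyc (bl (V N) (sV N) (1/2) z η (i, a)) (bl (V N) (sV N) (1/2) z η (j, y3))
      (bl (V N) (sV N) (1/2) z η (j, y2))]
    exact this

/-- The middle positions. -/
def mid (e1 B e2 : ℕ) : Finset (Fin (e1 + B + e2)) :=
  Finset.univ.filter (fun i => e1 ≤ i.val ∧ i.val < e1 + B)

theorem card_mid (e1 B e2 : ℕ) : (mid e1 B e2).card = B := by
  have h : (mid e1 B e2).card = (Finset.Ico e1 (e1 + B)).card := by
    apply Finset.card_bij (fun i _ => i.val)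
    · intro i hi
      have := (Finset.mem_filter.mp hi).2
      rw [Finset.mem_Ico]; exact this
    · intro i _ j _ h
      exact Fin.ext h
    · intro b hb
      rw [Finset.mem_Ico] at hb
      exact ⟨⟨b, by omega⟩, by simp [mid, hb.1, hb.2], rfl⟩
  rw [h]; simp

end

end Pool.Agent.Helper46.Holes
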