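import Pool.Agent.Helper46.Holes.Lattice

/-!
# The base cluster has no large triangle-free set
-/

namespace Pool.Agent.Helper46.Holes

open Filter Topology

/-- Triangle-freeness for sets of lattice points. -/
def TF (n : ℕ) (Q : ℤ × ℤ → ℝ × ℝ) (Y : Finset (ℤ × ℤ)) : Prop :=
  ∀ a ∈ Y, ∀ b ∈ Y, ∀ c ∈ Y, ∀ d ∈ Lam n, ∀ s : ℝ,
    ¬ (0 < s * ori (Q a) (Q b) (Q d) ∧ 0 < s * ori (Q b) (Q c) (Q d) ∧
      0 < s * ori (Q c) (Q a) (Q d))

theorem base_hole {n L : ℕ} (hL : n ^ 2 + n < L) {δ ε : ℝ} (hδ : 0 < δ) (hδL : 100 * 2 ^ L * δ ≤ 1)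
    (hε : 0 < ε)
    (hpos : ∀ p ∈ Lam n, ∀ r ∈ Lam n, ∀ t ∈ Lam n, 0 < oriZ p r t →
      0 < ori (qp δ L ((n:ℝ)^2+1) ε p) (qp δ L ((n:ℝ)^2+1) ε r) (qp δ L ((n:ℝ)^2+1) ε t))
    {Y : Finset (ℤ × ℤ)} (hY : Y ⊆ Lam n) (hTF : TF n (qp δ L ((n:ℝ)^2+1) ε) Y) :
    Y.card ≤ 27 := by
  classical
  by_contra hcard
  push Not at hcard
  set Q := qp δ L ((n:ℝ)^2+1) ε with hQ
  -- signed version of hpos
  have hsign : ∀ p ∈ Lam n, ∀ r ∈ Lam n, ∀ t ∈ Lam n, ∀ D : ℤ, 0 < D * oriZ p r t →
      0 < (D:ℝ) * ori (Q p) (Q r) (Q t) := by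
    intro p hp r hr t ht D hD
    rcases lt_trichotomy D 0 with h | h | h
    · have h1 : oriZ p r t < 0 := neg_of_mul_pos_right hD h.le
      have h2 : 0 < oriZ p t r := by
        have : oriZ p t r = - oriZ p r t := by unfold oriZ; ring
        omega
      have h3 := hpos p hp t ht r hr h2
      have h4 : ori (Q p) (Q r) (Q t) = - ori (Q p) (Q t) (Q r) := by unfold ori; ring
      rw [h4]
      have : (D:ℝ) < 0 := by exact_mod_cast h
      nlinarith
    · simp [h] at hD
    · have h1 : 0 < oriZ p r t := (pos_iff_pos_of_mul_pos hD).mp h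
      have h3 := hpos p hp r hr t ht h1
      have : (0:ℝ) < D := by exact_mod_cast h
      positivity
  -- pigeonhole
  obtain ⟨c, hc, hcc⟩ : ∃ c ∈ (Finset.Icc (0:ℤ) 2) ×ˢ (Finset.Icc (0:ℤ) 2),
      3 < (Y.filter (fun p => (p.1 % 3, p.2 % 3) = c)).card := by
    apply Finset.exists_lt_card_fiber_of_mul_lt_card_of_maps_to
    · intro p _
      simp only [Finset.mem_product, Finset.mem_Icc]
      omega
    · have : ((Finset.Icc (0:ℤ) 2) ×ˢ (Finset.Icc (0:ℤ) 2)).card = 9 := by rfl
      rw [this]; omega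
  set T := Y.filter (fun p => (p.1 % 3, p.2 % 3) = c) with hT
  have hTY : ∀ p ∈ T, p ∈ Y := fun p hp => (Finset.mem_filter.mp hp).1
  have hTc : ∀ p ∈ T, p.1 % 3 = c.1 ∧ p.2 % 3 = c.2 := by
    intro p hp
    have := (Finset.mem_filter.mp hp).2
    rw [← this]; exact ⟨rfl, rfl⟩
  -- same-class triples are collinear
  have hcol : ∀ p ∈ T, ∀ r ∈ T, ∀ t ∈ T, oriZ p r t = 0 := by
    intro p hp r hr t ht
    by_contra hne
    obtain ⟨p1, p2⟩ := hTc p hp
    obtain ⟨r1, r2⟩ := hTc r hr
    obtain ⟨t1, t2⟩ := hTc t ht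
    obtain ⟨g1, hg1⟩ : ∃ g1 : ℤ, 3 * g1 = p.1 + r.1 + t.1 := ⟨(p.1 + r.1 + t.1) / 3, by omega⟩
    obtain ⟨g2, hg2⟩ : ∃ g2 : ℤ, 3 * g2 = p.2 + r.2 + t.2 := ⟨(p.2 + r.2 + t.2) / 3, by omega⟩
    have hpL := hY (hTY p hp)
    have hrL := hY (hTY r hr)
    have htL := hY (hTY t ht)
    have hg : (g1, g2) ∈ Lam n := Lam_centroid hpL hrL htL hg1 hg2
    have e1 : 3 * oriZ p r (g1, g2) = oriZ p r t := by
      unfold oriZ
      linear_combination (r.1 - p.1) * hg2 - (r.2 - p.2) * hg1
    have e2 : 3 * oriZ r t (g1, g2) = oriZ p r t := by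
      unfold oriZ
      linear_combination (t.1 - r.1) * hg2 - (t.2 - r.2) * hg1
    have e3 : 3 * oriZ t p (g1, g2) = oriZ p r t := by
      unfold oriZ
      linear_combination (p.1 - t.1) * hg2 - (p.2 - t.2) * hg1
    have hD : 0 < oriZ p r t * oriZ p r t := mul_self_pos.mpr hne
    have hD3 : ∀ o : ℤ, 3 * o = oriZ p r t → 0 < oriZ p r t * o := by
      intro o ho
      have : 3 * (oriZ p r t * o) = oriZ p r t * oriZ p r t := by linear_combination (oriZ p r t) * ho
      omega
    refine hTF p (hTY p hp) r (hTY r hr) t (hTY t ht) (g1, g2) hg (oriZ p r t : ℤ) ⟨?_, ?_, ?_⟩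
    · exact hsign p hpL r hrL _ hg _ (hD3 _ e1)
    · exact hsign r hrL t htL _ hg _ (hD3 _ e2)
    · exact hsign t htL p hpL _ hg _ (hD3 _ e3)
  -- two distinct points
  obtain ⟨p, hp, r, hr, hpr⟩ : ∃ p ∈ T, ∃ r ∈ T, p ≠ r := by
    have : 1 < T.card := by omega
    exact Finset.one_lt_card.mp this
  obtain ⟨v, a, b, d, hab, hd, hv1, hv2⟩ := prim_dir hpr
  have hpL := hY (hTY p hp)
  have hrL := hY (hTY r hr)
  have hline : ∀ t : ℤ × ℤ, oriZ p r t = 0 →
      t = (p.1 + (a * (t.1 - p.1) + b * (t.2 - p.2)) * v.1,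
        p.2 + (a * (t.1 - p.1) + b * (t.2 - p.2)) * v.2) := by
    intro t ht
    have h1 : v.1 * (t.2 - p.2) - v.2 * (t.1 - p.1) = 0 := by
      unfold oriZ at ht
      rw [hv1, hv2] at ht
      have : d * (v.1 * (t.2 - p.2) - v.2 * (t.1 - p.1)) = 0 := by linear_combination ht
      rcases mul_eq_zero.mp this with h | h
      · omega
      · exact h
    have h2 := on_line (w := (t.1 - p.1, t.2 - p.2)) hab h1
    simp only at h2
    obtain ⟨h2, h3⟩ := h2
    ext
    · simp only; linarith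
    · simp only; linarith
  set kk : ℤ × ℤ → ℤ := fun t => a * (t.1 - p.1) + b * (t.2 - p.2) with hkk
  have hline' : ∀ t : ℤ × ℤ, oriZ p r t = 0 → (p.1 + kk t * v.1, p.2 + kk t * v.2) = t :=
    fun t ht => (hline t ht).symm
  set g : ℤ → ℝ := fun k => W δ L (p.1 + k * v.1, p.2 + k * v.2) with hg
  have hvodd : v.1 % 2 = 1 ∨ v.2 % 2 = 1 := by
    by_contra hcon
    push Not at hcon
    have e1 : v.1 = 2 * (v.1 / 2) := by omega
    have e2 : v.2 = 2 * (v.2 / 2) := by omega
    rw [e1, e2] at hab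
    have : 2 * (a * (v.1 / 2) + b * (v.2 / 2)) = 1 := by linear_combination hab
    omega
  have hHF : HF δ L g := W_line δ L p v hvodd
  -- bounds for v
  have hpm := mem_Lam.mp hpL
  have hrm := mem_Lam.mp hrL
  have hKne : ((v.1:ℝ) * ((n:ℝ)^2+1) - v.2) ≠ 0 := by
    have hZ : v.1 * ((n:ℤ)^2+1) - v.2 ≠ 0 := by
      intro h0
      have hv2b : |v.2| ≤ (n:ℤ)^2 := by
        have h1 : |r.2 - p.2| ≤ (n:ℤ)^2 := by
          rw [abs_le]; constructor <;> nlinarith [sq_nonneg p.1, sq_nonneg r.1]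
        rw [hv2, abs_mul, abs_of_pos hd] at h1
        nlinarith [abs_nonneg v.2]
      by_cases hv10 : v.1 = 0
      · rw [hv10] at h0 hab
        have : v.2 = 0 := by linarith
        rw [this] at hab; simp at hab
      · have h1 : |v.1 * ((n:ℤ)^2+1)| = |v.2| := by rw [sub_eq_zero.mp h0]
        rw [abs_mul] at h1
        have h2 : 1 ≤ |v.1| := Int.one_le_abs hv10
        have h3 : |((n:ℤ)^2+1)| = (n:ℤ)^2+1 := abs_of_pos (by positivity)
        rw [h3] at h1
        nlinarith
    exact_mod_cast hZ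
  -- diameter of sets of parameters
  have hdiam : ∀ t ∈ Lam n, ∀ t' ∈ Lam n, oriZ p r t = 0 → oriZ p r t' = 0 →
      kk t' - kk t < 2 ^ L := by
    intro t ht t' ht' h0 h0'
    have e := hline' t h0
    have e' := hline' t' h0'
    have m := mem_Lam.mp ht
    have m' := mem_Lam.mp ht'
    have E1 : (kk t' - kk t) * v.1 = t'.1 - t.1 := by
      rw [← e, ← e']; simp only; rw [e, e']; ring
    have E2 : (kk t' - kk t) * v.2 = t'.2 - t.2 := by
      rw [← e, ← e']; simp only; rw [e, e']; ring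
    have h1 : |(kk t' - kk t) * v.1| ≤ (n:ℤ) := by
      rw [E1, abs_le]; constructor <;> linarith
    have h2 : |(kk t' - kk t) * v.2| ≤ (n:ℤ)^2 := by
      rw [E2, abs_le]; constructor <;> nlinarith [sq_nonneg t.1, sq_nonneg t'.1]
    have h3 : |kk t' - kk t| ≤ (n:ℤ)^2 + n := by
      rw [abs_mul] at h1 h2
      rcases eq_or_ne v.1 0 with h | h
      · have hv2ne : v.2 ≠ 0 := by
          intro h'; rw [h, h'] at hab; simp at hab
        have := Int.one_le_abs hv2ne
        nlinarith [abs_nonneg (kk t' - kk t)]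
      · have := Int.one_le_abs h
        nlinarith [abs_nonneg (kk t' - kk t)]
    have h4 : ((n:ℤ)^2 + n) < 2 ^ L := by
      have : n ^ 2 + n < 2 ^ L := hL.trans Nat.lt_two_pow_self
      exact_mod_cast this
    exact (le_abs_self _).trans_lt (h3.trans_lt h4)
  have hinj : ∀ (U : Finset (ℤ × ℤ)), (∀ t ∈ U, oriZ p r t = 0) →
      (U.image kk).card = U.card := by
    intro U hU
    apply Finset.card_image_of_injOn
    intro t ht t' ht' hk
    rw [← hline' t (hU t ht), ← hline' t' (hU t' ht'), hk]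
  -- the orientation along the line
  have hori : ∀ x y k : ℤ, ori (Q (p.1 + x * v.1, p.2 + x * v.2)) (Q (p.1 + y * v.1, p.2 + y * v.2))
      (Q (p.1 + k * v.1, p.2 + k * v.2)) = ε * ((v.1:ℝ) * ((n:ℝ)^2+1) - v.2) * o3 g x y k :=
    fun x y k => ori_qp_line δ L _ ε p v x y k
  set κ := ((v.1:ℝ) * ((n:ℝ)^2+1) - v.2) with hκ
  by_cases hoff : ∃ z ∈ Y, oriZ p r z ≠ 0
  · -- a viewer off the line
    obtain ⟨z, hz, hz0⟩ := hoff
    set D : ℤ := v.1 * (z.2 - p.2) - v.2 * (z.1 - p.1) with hDdef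
    have hD0 : D ≠ 0 := by
      intro h0
      apply hz0
      unfold oriZ
      rw [hv1, hv2]
      have : d * D = 0 := by rw [h0, mul_zero]
      linear_combination this
    have hDD : 0 < D * D := mul_self_pos.mpr hD0
    have hcollT : ∀ t ∈ T, oriZ p r t = 0 := fun t ht => hcol p hp r hr t ht
    have hzL := hY hz
    -- the main inequality
    have hopen : ∀ x ∈ T.image kk, ∀ y ∈ T.image kk, ∀ k, x < k → k < y →
        (D:ℝ) * κ * o3 g x y k ≤ 0 := by
      intro x hx y hy k hxk hky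
      obtain ⟨t, ht, rfl⟩ := Finset.mem_image.mp hx
      obtain ⟨t', ht', rfl⟩ := Finset.mem_image.mp hy
      by_contra hcon
      push Not at hcon
      have et := hline' t (hcollT t ht)
      have et' := hline' t' (hcollT t' ht')
      have htL := hY (hTY t ht)
      have htL' := hY (hTY t' ht')
      have hs : (p.1 + k * v.1, p.2 + k * v.2) ∈ Lam n := by
        apply Lam_convex (x := kk t) (y := kk t') _ _ hxk.le hky.le
        · rw [et]; exact htL
        · rw [et']; exact htL'
      refine hTF t (hTY t ht) t' (hTY t' ht') z hz (p.1 + k * v.1, p.2 + k * v.2) hs (D:ℝ)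
        ⟨?_, ?_, ?_⟩
      · have := hori (kk t) (kk t') k
        rw [et, et'] at this
        rw [this]
        have : 0 < ε * ((D:ℝ) * κ * o3 g (kk t) (kk t') k) := by positivity
        linarith
      · apply hsign t' htL' z hzL _ hs
        have e : oriZ t' z (p.1 + k * v.1, p.2 + k * v.2) = (kk t' - k) * D := by
          have : oriZ (p.1 + kk t' * v.1, p.2 + kk t' * v.2) z (p.1 + k * v.1, p.2 + k * v.2)
              = (kk t' - k) * D := by
            rw [hDdef]; unfold oriZ; simp only; ring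
          rw [et'] at this; exact this
        rw [e]
        have : 0 < (kk t' - k) * (D * D) := mul_pos (by omega) hDD
        linarith
      · apply hsign z hzL t htL _ hs
        have e : oriZ z t (p.1 + k * v.1, p.2 + k * v.2) = (k - kk t) * D := by
          have : oriZ z (p.1 + kk t * v.1, p.2 + kk t * v.2) (p.1 + k * v.1, p.2 + k * v.2)
              = (k - kk t) * D := by
            rw [hDdef]; unfold oriZ; simp only; ring
          rw [et] at this; exact this
        rw [e]
        have : 0 < (k - kk t) * (D * D) := mul_pos (by omega) hDD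
        linarith
    have hdd : ∀ x ∈ T.image kk, ∀ y ∈ T.image kk, y - x < 2 ^ L := by
      intro x hx y hy
      obtain ⟨t, ht, rfl⟩ := Finset.mem_image.mp hx
      obtain ⟨t', ht', rfl⟩ := Finset.mem_image.mp hy
      exact hdiam t (hY (hTY t ht)) t' (hY (hTY t' ht')) (hcollT t ht) (hcollT t' ht')
    have hDR : (D:ℝ) ≠ 0 := by exact_mod_cast hD0
    have h3 : (T.image kk).card ≤ 3 := by
      rcases lt_or_gt_of_ne (mul_ne_zero hDR hKne) with hneg | hpos'
      · apply openUp_card hδ L (fun k => - g k) _ hδL (HF.neg L g hHF) _ hdd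
        intro x hx y hy k hxk hky
        rw [o3_neg]
        have := hopen x hx y hy k hxk hky
        by_contra hcon
        push Not at hcon
        have : 0 < ((D:ℝ) * κ) * o3 g x y k := by
          apply mul_pos_of_neg_of_neg hneg
          linarith
        linarith
      · apply openUp_card hδ L g _ hδL hHF _ hdd
        intro x hx y hy k hxk hky
        have := hopen x hx y hy k hxk hky
        by_contra hcon
        push Not at hcon
        have : 0 < ((D:ℝ) * κ) * o3 g x y k := mul_pos hpos' hcon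
        linarith
    rw [hinj T hcollT] at h3
    omega
  · -- all of `Y` on the line
    push Not at hoff
    have hLF : LineFree g (Y.image kk) := by
      intro x hx y hy t ht k ⟨u, hu, huk⟩ ⟨w, hw, hkw⟩ ⟨o1, o2, o3'⟩
      obtain ⟨x', hx', rfl⟩ := Finset.mem_image.mp hx
      obtain ⟨y', hy', rfl⟩ := Finset.mem_image.mp hy
      obtain ⟨t', ht', rfl⟩ := Finset.mem_image.mp ht
      obtain ⟨u', hu', rfl⟩ := Finset.mem_image.mp hu
      obtain ⟨w', hw', rfl⟩ := Finset.mem_image.mp hw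
      have ex := hline' x' (hoff x' hx')
      have ey := hline' y' (hoff y' hy')
      have et := hline' t' (hoff t' ht')
      have eu := hline' u' (hoff u' hu')
      have ew := hline' w' (hoff w' hw')
      have hs : (p.1 + k * v.1, p.2 + k * v.2) ∈ Lam n := by
        apply Lam_convex (x := kk u') (y := kk w') _ _ huk hkw
        · rw [eu]; exact hY hu'
        · rw [ew]; exact hY hw'
      have hκ2 : 0 < ε * (κ * κ) := mul_pos hε (mul_self_pos.mpr hKne)
      refine hTF x' hx' y' hy' t' ht' (p.1 + k * v.1, p.2 + k * v.2) hs κ ⟨?_, ?_, ?_⟩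
      · have := hori (kk x') (kk y') k
        rw [ex, ey] at this
        rw [this]
        have : 0 < ε * (κ * κ) * o3 g (kk x') (kk y') k := mul_pos hκ2 o1
        linarith
      · have := hori (kk y') (kk t') k
        rw [ey, et] at this
        rw [this]
        have : 0 < ε * (κ * κ) * o3 g (kk y') (kk t') k := mul_pos hκ2 o2
        linarith
      · have := hori (kk t') (kk x') k
        rw [et, ex] at this
        rw [this]
        have : 0 < ε * (κ * κ) * o3 g (kk t') (kk x') k := mul_pos hκ2 o3'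
        linarith
    have hdd : ∀ x ∈ Y.image kk, ∀ y ∈ Y.image kk, y - x < 2 ^ L := by
      intro x hx y hy
      obtain ⟨t, ht, rfl⟩ := Finset.mem_image.mp hx
      obtain ⟨t', ht', rfl⟩ := Finset.mem_image.mp hy
      exact hdiam t (hY ht) t' (hY ht') (hoff t ht) (hoff t' ht')
    have h6 := lineFree_card hδ L g (Y.image kk) hδL hHF hLF hdd
    rw [hinj Y hoff] at h6
    omega

end Pool.Agent.Helper46.Holes
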