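import Mathlib

/-!
# Orientation, triangles, triangle-free index sets, small-parameter lemmas
-/

namespace Pool.Agent.Helper46.Holes

open Filter Topology

/-- The cross product of two plane vectors. -/
def cr (a b : ℝ × ℝ) : ℝ := a.1 * b.2 - a.2 * b.1

/-- The orientation determinant of three points of the plane. -/
def ori (a b c : ℝ × ℝ) : ℝ := (b.1 - a.1) * (c.2 - a.2) - (b.2 - a.2) * (c.1 - a.1)

/-- `p` is strictly inside the counterclockwise triangle `abc`. -/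
def InTri (a b c p : ℝ × ℝ) : Prop := 0 < ori a b p ∧ 0 < ori b c p ∧ 0 < ori c a p

/-- No point of the family `z` is strictly inside a triangle with vertices indexed by `X`. -/
def TriFree {ι : Type} (z : ι → ℝ × ℝ) (X : Finset ι) : Prop :=
  ∀ a ∈ X, ∀ b ∈ X, ∀ c ∈ X, ∀ d, ¬ InTri (z a) (z b) (z c) (z d)

/-- Every point of the family can be strictly separated from the (other) points of `X`. -/
def HoleLike {ι : Type} (z : ι → ℝ × ℝ) (X : Finset ι) : Prop :=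
  ∀ p, ∃ α β : ℝ, ∀ y ∈ X, y ≠ p → 0 < α * ((z y).1 - (z p).1) + β * ((z y).2 - (z p).2)

theorem ev_pos {f : ℝ → ℝ} (hf : Continuous f) (h : 0 < f 0) : ∀ᶠ η in 𝓝[>] (0:ℝ), 0 < f η := by
  have h1 : ∀ᶠ η in 𝓝 (0:ℝ), 0 < f η := hf.continuousAt.eventually (lt_mem_nhds h)
  exact h1.filter_mono nhdsWithin_le_nhds

theorem ev_ne {f : ℝ → ℝ} (hf : Continuous f) (h : f 0 ≠ 0) : ∀ᶠ η in 𝓝[>] (0:ℝ), f η ≠ 0 := by
  have h1 : ∀ᶠ η in 𝓝 (0:ℝ), f η ≠ 0 := hf.continuousAt.eventually_ne h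
  exact h1.filter_mono nhdsWithin_le_nhds

theorem ev_self : ∀ᶠ η in 𝓝[>] (0:ℝ), 0 < η := eventually_mem_nhdsWithin

theorem ev_imp {p : Prop} {P : ℝ → Prop} (h : p → ∀ᶠ η in 𝓝[>] (0:ℝ), P η) :
    ∀ᶠ η in 𝓝[>] (0:ℝ), p → P η := by
  by_cases hp : p
  · filter_upwards [h hp] with η hη _ using hη
  · exact Eventually.of_forall fun η h => absurd h hp

theorem inTri_not_neg {ι : Type} {z : ι → ℝ × ℝ} {X : Finset ι} (h : TriFree z X)
    {a b c : ι} (ha : a ∈ X) (hb : b ∈ X) (hc : c ∈ X) (d : ι) :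
    ¬ (ori (z a) (z b) (z d) < 0 ∧ ori (z b) (z c) (z d) < 0 ∧ ori (z c) (z a) (z d) < 0) := by
  rintro ⟨h1, h2, h3⟩
  refine h b hb a ha c hc d ⟨?_, ?_, ?_⟩ <;> unfold ori at * <;> nlinarith

/-- Sign-agnostic version: multiply all three orientations by a common factor. -/
theorem triFree_sign {ι : Type} {z : ι → ℝ × ℝ} {X : Finset ι} (h : TriFree z X)
    {a b c : ι} (ha : a ∈ X) (hb : b ∈ X) (hc : c ∈ X) (d : ι) (s : ℝ) :
    ¬ (0 < s * ori (z a) (z b) (z d) ∧ 0 < s * ori (z b) (z c) (z d) ∧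
      0 < s * ori (z c) (z a) (z d)) := by
  rintro ⟨h1, h2, h3⟩
  rcases lt_trichotomy s 0 with hs | hs | hs
  · refine inTri_not_neg h ha hb hc d ⟨?_, ?_, ?_⟩
    · exact (neg_of_mul_pos_right h1 hs.le)
    · exact (neg_of_mul_pos_right h2 hs.le)
    · exact (neg_of_mul_pos_right h3 hs.le)
  · simp [hs] at h1
  · exact h a ha b hb c hc d ⟨(pos_iff_pos_of_mul_pos h1).mp hs, (pos_iff_pos_of_mul_pos h2).mp hs,
      (pos_iff_pos_of_mul_pos h3).mp hs⟩

end Pool.Agent.Helper46.Holes
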