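import Pool.Agent.Helper46.Holes.Cluster

/-!
# Blow-up of a point family, and substitution of a cluster into the front of another cluster
-/

namespace Pool.Agent.Helper46.Holes

open Filter Topology

section blow
variable {J κ : Type}

/-- Offsets: the sheared copy of `z` at `j`. -/
noncomputable def off (s : J → ℝ) (μ : ℝ) (z : κ → ℝ × ℝ) (x : J × κ) : ℝ × ℝ :=
  ((z x.2).1, s x.1 * (z x.2).1 + μ * (z x.2).2)

/-- The blow-up: a copy of `z` of size `η` at each `q j`. -/
noncomputable def bl (q : J → ℝ × ℝ) (s : J → ℝ) (μ : ℝ) (z : κ → ℝ × ℝ) (η : ℝ) (x : J × κ) :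
    ℝ × ℝ :=
  ((q x.1).1 + η * (off s μ z x).1, (q x.1).2 + η * (off s μ z x).2)

theorem bl_zero (q : J → ℝ × ℝ) (s : J → ℝ) (μ : ℝ) (z : κ → ℝ × ℝ) (x : J × κ) :
    bl q s μ z 0 x = q x.1 := by
  unfold bl; simp

theorem bl_same (q : J → ℝ × ℝ) (s : J → ℝ) (μ : ℝ) (z : κ → ℝ × ℝ) (η : ℝ) (j : J) (a b c : κ) :
    ori (bl q s μ z η (j, a)) (bl q s μ z η (j, b)) (bl q s μ z η (j, c)) =
      η ^ 2 * μ * ori (z a) (z b) (z c) := by
  unfold ori bl off
  ring

theorem bl_tri_same (q : J → ℝ × ℝ) (s : J → ℝ) {μ : ℝ} (z : κ → ℝ × ℝ) {η : ℝ} (hμ : 0 < μ)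
    (hη : 0 < η) (j : J) (a b c d : κ) (h : InTri (z a) (z b) (z c) (z d)) :
    InTri (bl q s μ z η (j, a)) (bl q s μ z η (j, b)) (bl q s μ z η (j, c))
      (bl q s μ z η (j, d)) := by
  obtain ⟨h1, h2, h3⟩ := h
  refine ⟨?_, ?_, ?_⟩ <;> rw [bl_same] <;> positivity

variable [Finite J] [Finite κ]

theorem ev_tri (q : J → ℝ × ℝ) (s : J → ℝ) (μ : ℝ) (z : κ → ℝ × ℝ) :
    ∀ᶠ η in 𝓝[>] (0:ℝ), ∀ x y w v : J × κ, InTri (q x.1) (q y.1) (q w.1) (q v.1) →
      InTri (bl q s μ z η x) (bl q s μ z η y) (bl q s μ z η w) (bl q s μ z η v) := by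
  rw [eventually_all]; intro x
  rw [eventually_all]; intro y
  rw [eventually_all]; intro w
  rw [eventually_all]; intro v
  apply ev_imp
  rintro ⟨h1, h2, h3⟩
  refine (ev_pos ?_ ?_).and ((ev_pos ?_ ?_).and (ev_pos ?_ ?_))
  · simp only [ori, bl]; fun_prop
  · simp only [bl_zero]; exact h1
  · simp only [ori, bl]; fun_prop
  · simp only [bl_zero]; exact h2
  · simp only [ori, bl]; fun_prop
  · simp only [bl_zero]; exact h3

theorem ev_pair (q : J → ℝ × ℝ) (s : J → ℝ) (μ : ℝ) (z : κ → ℝ × ℝ) :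
    ∀ᶠ η in 𝓝[>] (0:ℝ), ∀ x y w : J × κ, (x.1 = y.1 ∧
      0 < ((off s μ z y).1 - (off s μ z x).1) * ((q w.1).2 - (q x.1).2) -
        ((off s μ z y).2 - (off s μ z x).2) * ((q w.1).1 - (q x.1).1)) →
      0 < ori (bl q s μ z η x) (bl q s μ z η y) (bl q s μ z η w) := by
  rw [eventually_all]; intro x
  rw [eventually_all]; intro y
  rw [eventually_all]; intro w
  apply ev_imp
  rintro ⟨h1, h2⟩
  have h3 : ∀ᶠ η in 𝓝[>] (0:ℝ), 0 < ((off s μ z y).1 - (off s μ z x).1) *
      ((bl q s μ z η w).2 - (bl q s μ z η x).2) - ((off s μ z y).2 - (off s μ z x).2) *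
      ((bl q s μ z η w).1 - (bl q s μ z η x).1) := by
    apply ev_pos
    · simp only [bl]; fun_prop
    · simp only [bl_zero]; exact h2
  filter_upwards [h3, ev_self] with η h4 h5
  have e : ori (bl q s μ z η x) (bl q s μ z η y) (bl q s μ z η w) =
      η * (((off s μ z y).1 - (off s μ z x).1) *
      ((bl q s μ z η w).2 - (bl q s μ z η x).2) - ((off s μ z y).2 - (off s μ z x).2) *
      ((bl q s μ z η w).1 - (bl q s μ z η x).1)) := by
    have e1 : (bl q s μ z η y).1 - (bl q s μ z η x).1 = η * ((off s μ z y).1 - (off s μ z x).1) := by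
      unfold bl; rw [h1]; ring
    have e2 : (bl q s μ z η y).2 - (bl q s μ z η x).2 = η * ((off s μ z y).2 - (off s μ z x).2) := by
      unfold bl; rw [h1]; ring
    unfold ori
    rw [e1, e2]; ring
  rw [e]
  positivity

end blow

section subst
variable {J κ : Type} [Fintype J] [Fintype κ]

/-- The index type of a blow-up in which only the points of `F` are replaced. -/
abbrev KK (F : Finset J) (p0 : κ) : Type := {x : J × κ // x.1 ∈ F ∨ x.2 = p0}

noncomputable instance instKK (F : Finset J) (p0 : κ) : Fintype (KK F p0) := by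
  classical
  exact Subtype.fintype _

theorem card_KK (F : Finset J) (p0 : κ) :
    Fintype.card (KK F p0) ≤ Fintype.card J + F.card * Fintype.card κ := by
  classical
  have h1 : Fintype.card (KK F p0) =
      (Finset.univ.filter (fun x : J × κ => x.1 ∈ F ∨ x.2 = p0)).card := by
    rw [← Fintype.card_subtype]
  rw [h1, Finset.filter_or]
  refine (Finset.card_union_le _ _).trans ?_
  have h2 : (Finset.univ.filter (fun x : J × κ => x.1 ∈ F)) ⊆ F ×ˢ Finset.univ := by
    intro x hx
    simpa using hx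
  have h3 : (Finset.univ.filter (fun x : J × κ => x.2 = p0)) ⊆ Finset.univ ×ˢ {p0} := by
    intro x hx
    rw [Finset.mem_product, Finset.mem_singleton]
    exact ⟨Finset.mem_univ _, (Finset.mem_filter.mp hx).2⟩
  have h4 := Finset.card_le_card h2
  have h5 := Finset.card_le_card h3
  rw [Finset.card_product] at h4 h5
  simp only [Finset.card_univ, Finset.card_singleton, mul_one] at h4 h5
  omega

open Classical in
/-- The substituted front. -/
noncomputable def FF (F : Finset J) (p0 : κ) (Fκ : Finset κ) : Finset (KK F p0) :=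
  (F.attach ×ˢ Fκ).image (fun x => ⟨(x.1.1, x.2), Or.inl x.1.2⟩)

open Classical in
/-- The substituted edges. -/
noncomputable def EE (F : Finset J) (p0 : κ) (Eκ : Finset (κ × κ)) :
    Finset (KK F p0 × KK F p0) :=
  (F.attach ×ˢ Eκ).image (fun x => (⟨(x.1.1, x.2.1), Or.inl x.1.2⟩, ⟨(x.1.1, x.2.2), Or.inl x.1.2⟩))

omit [Fintype J] [Fintype κ] in
theorem card_FF (F : Finset J) (p0 : κ) (Fκ : Finset κ) :
    (FF F p0 Fκ).card = F.card * Fκ.card := by
  classical
  unfold FF
  rw [Finset.card_image_of_injective, Finset.card_product, Finset.card_attach]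
  rintro ⟨⟨a, ha⟩, b⟩ ⟨⟨c, hc⟩, d⟩ h
  have h1 := congrArg Subtype.val h
  simp only [Prod.mk.injEq] at h1
  obtain ⟨rfl, rfl⟩ := h1
  rfl

omit [Fintype J] [Fintype κ] in
theorem card_EE (F : Finset J) (p0 : κ) (Eκ : Finset (κ × κ)) :
    (EE F p0 Eκ).card = F.card * Eκ.card := by
  classical
  unfold EE
  rw [Finset.card_image_of_injective, Finset.card_product, Finset.card_attach]
  rintro ⟨⟨a, ha⟩, ⟨b, b'⟩⟩ ⟨⟨c, hc⟩, ⟨d, d'⟩⟩ h
  have h1 := congrArg Subtype.val (congrArg Prod.fst h)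
  have h2 := congrArg Subtype.val (congrArg Prod.snd h)
  simp only [Prod.mk.injEq] at h1 h2
  obtain ⟨rfl, rfl⟩ := h1
  obtain ⟨_, rfl⟩ := h2
  rfl

theorem substitute {q : J → ℝ × ℝ} {F : Finset J} {EJ : Finset (J × J)} {σ C : ℝ} {H : ℕ}
    (hJ : IsCluster q F EJ σ C H) {Fκ : Finset κ} {Eκ : Finset (κ × κ)} {σ0 : ℝ} {H0 : ℕ}
    (hκ : ∀ C' : ℝ, ∃ z : κ → ℝ × ℝ, IsCluster z Fκ Eκ σ0 C' H0) (p0 : κ) (hH0 : 1 ≤ H0) :
    ∃ Z : KK F p0 → ℝ × ℝ, IsCluster Z (FF F p0 Fκ) (EE F p0 Eκ) σ C (H * H0) := by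
  classical
  have hs0 : ∀ f : J, ∃ s : ℝ, f ∈ F → (|s| < σ ∧
      ∀ a, a ≠ f → s * ((q a).1 - (q f).1) < (q a).2 - (q f).2) := by
    intro f
    by_cases hf : f ∈ F
    · obtain ⟨s, hs⟩ := hJ.front f hf
      exact ⟨s, fun _ => hs⟩
    · exact ⟨0, fun h => absurd h hf⟩
  choose s hs using hs0
  -- choice of μ
  have evμ1 : ∀ᶠ μ in 𝓝[>] (0:ℝ), ∀ f : J, f ∈ F → 0 < σ - |s f| - μ * σ0 := by
    rw [eventually_all]; intro f
    apply ev_imp
    intro hf
    apply ev_pos
    · fun_prop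
    · have := (hs f hf).1
      linarith
  have evμ2 : ∀ᶠ μ in 𝓝[>] (0:ℝ), ∀ f a : J, (f ∈ F ∧ a ≠ f) →
      0 < (q a).2 - (q f).2 - s f * ((q a).1 - (q f).1) - μ * σ0 * |(q a).1 - (q f).1| := by
    rw [eventually_all]; intro f
    rw [eventually_all]; intro a
    apply ev_imp
    rintro ⟨hf, ha⟩
    apply ev_pos
    · fun_prop
    · have := (hs f hf).2 a ha
      linarith
  obtain ⟨μ, hμ1, hμ2, hμ⟩ := (evμ1.and (evμ2.and ev_self)).exists
  obtain ⟨z, hz⟩ := hκ ((σ + C) / μ)
  have ht0 : ∀ f : κ, ∃ s : ℝ, f ∈ Fκ → (|s| < σ0 ∧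
      ∀ a, a ≠ f → s * ((z a).1 - (z f).1) < (z a).2 - (z f).2) := by
    intro f
    by_cases hf : f ∈ Fκ
    · obtain ⟨s, hs⟩ := hz.front f hf
      exact ⟨s, fun _ => hs⟩
    · exact ⟨0, fun h => absurd h hf⟩
  choose t ht using ht0
  -- choice of η
  have evη4 : ∀ᶠ η in 𝓝[>] (0:ℝ), ∀ x y : J × κ, (x.1 ∈ F ∧ y.1 ≠ x.1 ∧ x.2 ∈ Fκ) →
      0 < ((bl q s μ z η y).2 - (bl q s μ z η x).2) -
        (s x.1 + μ * t x.2) * ((bl q s μ z η y).1 - (bl q s μ z η x).1) := by
    rw [eventually_all]; intro x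
    rw [eventually_all]; intro y
    apply ev_imp
    rintro ⟨h1, h2, h3⟩
    apply ev_pos
    · simp only [bl]; fun_prop
    · simp only [bl_zero]
      have h4 := hμ2 x.1 y.1 ⟨h1, h2⟩
      have h5 := (ht x.2 h3).1
      have h6 : μ * t x.2 * ((q y.1).1 - (q x.1).1) ≤ μ * σ0 * |(q y.1).1 - (q x.1).1| := by
        calc μ * t x.2 * ((q y.1).1 - (q x.1).1) ≤ |μ * t x.2 * ((q y.1).1 - (q x.1).1)| :=
              le_abs_self _
          _ = μ * |t x.2| * |(q y.1).1 - (q x.1).1| := by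
              rw [abs_mul, abs_mul, abs_of_pos hμ]
          _ ≤ μ * σ0 * |(q y.1).1 - (q x.1).1| := by
              apply mul_le_mul_of_nonneg_right _ (abs_nonneg _)
              exact mul_le_mul_of_nonneg_left h5.le hμ.le
      nlinarith
  have evη5 : ∀ᶠ η in 𝓝[>] (0:ℝ), ∀ x y : J × κ,
      ((q y.1).2 - (q x.1).2 < -(C * |(q y.1).1 - (q x.1).1|)) →
      0 < -(C * |(bl q s μ z η y).1 - (bl q s μ z η x).1|) -
        ((bl q s μ z η y).2 - (bl q s μ z η x).2) := by
    rw [eventually_all]; intro x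
    rw [eventually_all]; intro y
    apply ev_imp
    intro h1
    apply ev_pos
    · simp only [bl]; fun_prop
    · simp only [bl_zero]; linarith
  obtain ⟨η, hη1, hη2, hη4, hη5, hη⟩ :=
    ((ev_tri q s μ z).and ((ev_pair q s μ z).and (evη4.and (evη5.and ev_self)))).exists
  refine ⟨fun x => bl q s μ z η x.1, ?_, ?_, ?_, ?_⟩
  · -- front
    intro x hx
    obtain ⟨⟨⟨f, hf⟩, g⟩, hfg, rfl⟩ := Finset.mem_image.mp hx
    have hg : g ∈ Fκ := (Finset.mem_product.mp hfg).2
    refine ⟨s f + μ * t g, ?_, ?_⟩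
    · have h1 := hμ1 f hf
      have h2 := (ht g hg).1
      calc |s f + μ * t g| ≤ |s f| + |μ * t g| := abs_add_le _ _
        _ = |s f| + μ * |t g| := by rw [abs_mul, abs_of_pos hμ]
        _ < σ := by nlinarith
    · intro a ha
      by_cases h1 : a.1.1 = f
      · have h2 : a.1.2 ≠ g := by
          intro h3
          apply ha
          apply Subtype.ext
          exact Prod.ext h1 h3
        have h3 := (ht g hg).2 a.1.2 h2
        unfold bl off
        simp only
        rw [h1]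
        have h4 : 0 < η * μ * (((z a.1.2).2 - (z g).2) - t g * ((z a.1.2).1 - (z g).1)) := by
          have : 0 < ((z a.1.2).2 - (z g).2) - t g * ((z a.1.2).1 - (z g).1) := by linarith
          positivity
        nlinarith
      · have := hη4 (f, g) a.1 ⟨hf, h1, hg⟩
        simp only at this
        linarith
  · -- hid
    intro x hx
    by_cases h1 : x.1.1 ∈ F
    · have h2 : x.1.2 ∉ Fκ := by
        intro h3
        apply hx
        unfold FF
        rw [Finset.mem_image]
        exact ⟨(⟨x.1.1, h1⟩, x.1.2), by simp [h3], rfl⟩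
      obtain ⟨b, hb⟩ := hz.hid x.1.2 h2
      refine ⟨⟨(x.1.1, b), Or.inl h1⟩, ?_⟩
      unfold bl off
      simp only
      have h3 := (hs x.1.1 h1).1
      set Δx := (z b).1 - (z x.1.2).1 with hΔx
      set Δy := (z b).2 - (z x.1.2).2 with hΔy
      have e1 : (q x.1.1).2 + η * (s x.1.1 * (z b).1 + μ * (z b).2) -
          ((q x.1.1).2 + η * (s x.1.1 * (z x.1.2).1 + μ * (z x.1.2).2)) =
          η * (s x.1.1 * Δx + μ * Δy) := by rw [hΔx, hΔy]; ring
      have e2 : (q x.1.1).1 + η * (z b).1 - ((q x.1.1).1 + η * (z x.1.2).1) = η * Δx := by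
        rw [hΔx]; ring
      rw [e1, e2, abs_mul, abs_of_pos hη]
      have h4 : s x.1.1 * Δx ≤ σ * |Δx| := by
        calc s x.1.1 * Δx ≤ |s x.1.1 * Δx| := le_abs_self _
          _ = |s x.1.1| * |Δx| := abs_mul _ _
          _ ≤ σ * |Δx| := mul_le_mul_of_nonneg_right h3.le (abs_nonneg _)
      have h5 : μ * Δy < -((σ + C) * |Δx|) := by
        have := mul_lt_mul_of_pos_left hb hμ
        have e3 : μ * -((σ + C) / μ * |Δx|) = -((σ + C) * |Δx|) := by
          field_simp
        rw [e3] at this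
        exact this
      have h6 : s x.1.1 * Δx + μ * Δy < -(C * |Δx|) := by nlinarith
      have := mul_lt_mul_of_pos_left h6 hη
      linarith
    · have h2 : x.1.2 = p0 := x.2.resolve_left h1
      obtain ⟨b, hb⟩ := hJ.hid x.1.1 h1
      refine ⟨⟨(b, p0), Or.inr rfl⟩, ?_⟩
      have := hη5 x.1 (b, p0) hb
      linarith
  · -- edge
    intro e he
    obtain ⟨⟨⟨f, hf⟩, ⟨g, g'⟩⟩, hfg, rfl⟩ := Finset.mem_image.mp he
    have hg : (g, g') ∈ Eκ := (Finset.mem_product.mp hfg).2
    obtain ⟨h1, h2, h3⟩ := hz.edge (g, g') hg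
    simp only at h1 h2 h3
    set Δx := (z g').1 - (z g).1 with hΔx
    set Δy := (z g').2 - (z g).2 with hΔy
    have hΔpos : 0 < Δx := by rw [hΔx]; linarith
    have hsf := hμ1 f hf
    refine ⟨?_, ?_, ?_⟩
    · unfold bl off
      simp only
      nlinarith
    · unfold bl off
      simp only
      have e1 : (q f).2 + η * (s f * (z g').1 + μ * (z g').2) -
          ((q f).2 + η * (s f * (z g).1 + μ * (z g).2)) =
          η * (s f * Δx + μ * Δy) := by rw [hΔx, hΔy]; ring
      have e2 : (q f).1 + η * (z g').1 - ((q f).1 + η * (z g).1) = η * Δx := by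
        rw [hΔx]; ring
      rw [e1, e2, abs_mul, abs_of_pos hη]
      have h4 : |s f * Δx + μ * Δy| < σ * Δx := by
        calc |s f * Δx + μ * Δy| ≤ |s f * Δx| + |μ * Δy| := abs_add_le _ _
          _ = |s f| * Δx + μ * |Δy| := by
              rw [abs_mul, abs_mul, abs_of_pos hμ, abs_of_pos hΔpos]
          _ < σ * Δx := by nlinarith
      have := mul_lt_mul_of_pos_left h4 hη
      linarith
    · intro a ha1 ha2
      by_cases h4 : a.1.1 = f
      · have ea : a.1 = (f, a.1.2) := by rw [← h4]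
        simp only
        rw [ea, bl_same]
        have h5 : a.1.2 ≠ g := by
          intro h6
          apply ha1
          apply Subtype.ext
          exact Prod.ext h4 h6
        have h6 : a.1.2 ≠ g' := by
          intro h6
          apply ha2
          apply Subtype.ext
          exact Prod.ext h4 h6
        have := h3 a.1.2 h5 h6
        positivity
      · apply hη2 (f, g) (f, g') a.1
        refine ⟨rfl, ?_⟩
        unfold off
        simp only
        have h5 := hμ2 f a.1.1 ⟨hf, h4⟩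
        set X := (q a.1.1).1 - (q f).1 with hX
        set Y := (q a.1.1).2 - (q f).2 with hY
        have e1 : ((z g').1 - (z g).1) * Y -
            (s f * (z g').1 + μ * (z g').2 - (s f * (z g).1 + μ * (z g).2)) * X =
            Δx * (Y - s f * X) - μ * Δy * X := by rw [hΔx, hΔy]; ring
        rw [e1]
        have h6 : μ * Δy * X ≤ Δx * (μ * σ0 * |X|) := by
          calc μ * Δy * X ≤ |μ * Δy * X| := le_abs_self _
            _ = μ * |Δy| * |X| := by rw [abs_mul, abs_mul, abs_of_pos hμ]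
            _ ≤ μ * (σ0 * Δx) * |X| := by
                apply mul_le_mul_of_nonneg_right _ (abs_nonneg _)
                exact mul_le_mul_of_nonneg_left h2.le hμ.le
            _ = Δx * (μ * σ0 * |X|) := by ring
        have h7 : 0 < Δx * (Y - s f * X - μ * σ0 * |X|) := mul_pos hΔpos h5
        linarith
  · -- hole
    intro X hX
    have c1 : (X.image (fun x => x.1.1)).card ≤ H := by
      apply hJ.hole
      intro a ha b hb c hc d hin
      obtain ⟨a', ha', rfl⟩ := Finset.mem_image.mp ha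
      obtain ⟨b', hb', rfl⟩ := Finset.mem_image.mp hb
      obtain ⟨c', hc', rfl⟩ := Finset.mem_image.mp hc
      exact hX a' ha' b' hb' c' hc' ⟨(d, p0), Or.inr rfl⟩ (hη1 a'.1 b'.1 c'.1 (d, p0) hin)
    have c2 : ∀ j ∈ X.image (fun x => x.1.1), (X.filter (fun x => x.1.1 = j)).card ≤ H0 := by
      intro j _
      by_cases hj : j ∈ F
      · have c3 : (X.filter (fun x => x.1.1 = j)).card =
            ((X.filter (fun x => x.1.1 = j)).image (fun x => x.1.2)).card := by
          symm
          apply Finset.card_image_of_injOn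
          intro x hx y hy hxy
          have hx' := (Finset.mem_filter.mp hx).2
          have hy' := (Finset.mem_filter.mp hy).2
          apply Subtype.ext
          exact Prod.ext (by rw [hx', hy']) hxy
        rw [c3]
        apply hz.hole
        intro a ha b hb c hc d hin
        obtain ⟨a', ha', rfl⟩ := Finset.mem_image.mp ha
        obtain ⟨b', hb', rfl⟩ := Finset.mem_image.mp hb
        obtain ⟨c', hc', rfl⟩ := Finset.mem_image.mp hc
        obtain ⟨ha1, ha2⟩ := Finset.mem_filter.mp ha'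
        obtain ⟨hb1, hb2⟩ := Finset.mem_filter.mp hb'
        obtain ⟨hc1, hc2⟩ := Finset.mem_filter.mp hc'
        refine hX a' ha1 b' hb1 c' hc1 ⟨(j, d), Or.inl hj⟩ ?_
        have := bl_tri_same q s z hμ hη j a'.1.2 b'.1.2 c'.1.2 d hin
        have ea : a'.1 = (j, a'.1.2) := by rw [← ha2]
        have eb : b'.1 = (j, b'.1.2) := by rw [← hb2]
        have ec : c'.1 = (j, c'.1.2) := by rw [← hc2]
        simp only
        rw [ea, eb, ec]
        exact this
      · refine le_trans ?_ hH0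
        rw [Finset.card_le_one]
        intro x hx y hy
        obtain ⟨hx1, hx2⟩ := Finset.mem_filter.mp hx
        obtain ⟨hy1, hy2⟩ := Finset.mem_filter.mp hy
        have hx3 : x.1.2 = p0 := x.2.resolve_left (by rw [hx2]; exact hj)
        have hy3 : y.1.2 = p0 := y.2.resolve_left (by rw [hy2]; exact hj)
        apply Subtype.ext
        exact Prod.ext (by rw [hx2, hy2]) (by rw [hx3, hy3])
    calc X.card ≤ H0 * (X.image (fun x => x.1.1)).card := Finset.card_le_mul_card_image X H0 c2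
      _ ≤ H0 * H := Nat.mul_le_mul_left _ c1
      _ = H * H0 := mul_comm _ _

end subst

end Pool.Agent.Helper46.Holes
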