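import Pool.Agent.Helper46.Holes.BaseHole

/-!
# Clusters, and the base cluster
-/

namespace Pool.Agent.Helper46.Holes

open Filter Topology

/-- A cluster: a finite family `z` with a set `F` of front points, a set `E` of front edges and
no triangle-free set with more than `H` elements. -/
structure IsCluster {ι : Type} (z : ι → ℝ × ℝ) (F : Finset ι) (E : Finset (ι × ι)) (σ C : ℝ)
    (H : ℕ) : Prop where
  front : ∀ f ∈ F, ∃ s : ℝ, |s| < σ ∧ ∀ a, a ≠ f → s * ((z a).1 - (z f).1) < (z a).2 - (z f).2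
  hid : ∀ a, a ∉ F → ∃ b, (z b).2 - (z a).2 < -(C * |(z b).1 - (z a).1|)
  edge : ∀ e ∈ E, (z e.1).1 < (z e.2).1 ∧
    |(z e.2).2 - (z e.1).2| < σ * ((z e.2).1 - (z e.1).1) ∧
    ∀ a, a ≠ e.1 → a ≠ e.2 → 0 < ori (z e.1) (z e.2) (z a)
  hole : ∀ X : Finset ι, TriFree z X → X.card ≤ H

/-- Fronts of the base cluster. -/
noncomputable def F0 (n : ℕ) : Finset {p // p ∈ Lam n} :=
  Finset.univ.filter (fun p => p.1.2 = p.1.1 ^ 2)

/-- Edges of the base cluster. -/
noncomputable def E0 (n : ℕ) : Finset ({p // p ∈ Lam n} × {p // p ∈ Lam n}) :=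
  Finset.univ.filter (fun e => e.1.1.2 = e.1.1.1 ^ 2 ∧ e.2.1.2 = e.2.1.1 ^ 2 ∧
    e.2.1.1 = e.1.1.1 + 1)

theorem mem_par {n : ℕ} {i : ℤ} (h0 : 0 ≤ i) (h1 : i ≤ n) : (i, i ^ 2) ∈ Lam n := by
  rw [mem_Lam]
  simp only
  refine ⟨h0, h1, by nlinarith, le_rfl⟩

theorem card_F0 (n : ℕ) : (F0 n).card = n + 1 := by
  have h : (F0 n).card = (Finset.Icc (0:ℤ) n).card := by
    apply Finset.card_bij (fun p _ => p.1.1)
    · intro p _
      have := mem_Lam.mp p.2
      simp only [Finset.mem_Icc]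
      exact ⟨this.1, this.2.1⟩
    · intro p hp q hq hpq
      have h1 := (Finset.mem_filter.mp hp).2
      have h2 := (Finset.mem_filter.mp hq).2
      apply Subtype.ext
      ext
      · exact hpq
      · rw [h1, h2, hpq]
    · intro i hi
      rw [Finset.mem_Icc] at hi
      exact ⟨⟨(i, i ^ 2), mem_par hi.1 hi.2⟩, by simp [F0], rfl⟩
  rw [h, Int.card_Icc]
  omega

theorem card_E0 (n : ℕ) : n ≤ (E0 n).card := by
  classical
  have hm : ∀ i : Fin n, ((i.val : ℤ), (i.val : ℤ) ^ 2) ∈ Lam n := fun i =>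
    mem_par (by omega) (by omega)
  have hm' : ∀ i : Fin n, ((i.val : ℤ) + 1, ((i.val : ℤ) + 1) ^ 2) ∈ Lam n := fun i =>
    mem_par (by omega) (by omega)
  have h : (Finset.univ : Finset (Fin n)).card ≤ (E0 n).card := by
    apply Finset.card_le_card_of_injOn (fun i => (⟨_, hm i⟩, ⟨_, hm' i⟩))
    · intro i _
      simp [E0]
    · intro i _ j _ hij
      simp only [Prod.mk.injEq, Subtype.mk.injEq] at hij
      have := hij.1.1
      apply Fin.ext
      omega
  simpa using h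

theorem base_cluster (n : ℕ) (C : ℝ) :
    ∃ z : {p // p ∈ Lam n} → ℝ × ℝ, IsCluster z (F0 n) (E0 n) (2 * n + 2) C 27 := by
  set L := n ^ 2 + n + 1 with hL
  set δ : ℝ := 1 / (100 * 2 ^ L) with hδdef
  have h2L : (0:ℝ) < 100 * 2 ^ L := by positivity
  have hδ : 0 < δ := by positivity
  have hδL : 100 * 2 ^ L * δ ≤ 1 := by
    rw [hδdef, mul_one_div_cancel h2L.ne']
  set q : ℝ → ℤ × ℤ → ℝ × ℝ := fun ε => qp δ L ((n:ℝ)^2+1) ε with hq
  have ev1 : ∀ᶠ ε in 𝓝[>] (0:ℝ), ∀ p r t : {p // p ∈ Lam n}, 0 < oriZ p r t →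
      0 < ori (q ε p) (q ε r) (q ε t) := by
    rw [eventually_all]; intro p
    rw [eventually_all]; intro r
    rw [eventually_all]; intro t
    apply ev_imp
    intro h
    apply ev_pos
    · simp only [hq, ori, qp]; fun_prop
    · rw [hq, ori_qp_zero]; exact_mod_cast h
  have ev2 : ∀ᶠ ε in 𝓝[>] (0:ℝ), ∀ f p : {p // p ∈ Lam n}, (f.1.2 = f.1.1 ^ 2 ∧ p ≠ f) →
      0 < ((q ε p).2 - (q ε f).2) - (2 * (f.1.1:ℝ)) * ((q ε p).1 - (q ε f).1) := by
    rw [eventually_all]; intro f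
    rw [eventually_all]; intro p
    apply ev_imp
    rintro ⟨h1, h2⟩
    apply ev_pos
    · simp only [hq, qp]; fun_prop
    · simp only [hq, qp, zero_mul, add_zero]
      have hp := mem_Lam.mp p.2
      have : (0:ℤ) < (p.1.2 - f.1.2) - 2 * f.1.1 * (p.1.1 - f.1.1) := by
        rw [h1]
        have h3 : (p.1.1 - f.1.1) ^ 2 + (p.1.2 - p.1.1 ^ 2) =
          (p.1.2 - f.1.1 ^ 2) - 2 * f.1.1 * (p.1.1 - f.1.1) := by ring
        rw [← h3]
        by_cases h4 : p.1.1 = f.1.1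
        · have h5 : p.1.2 ≠ p.1.1 ^ 2 := by
            intro h5
            apply h2
            apply Subtype.ext
            ext
            · exact h4
            · rw [h5, h1, h4]
          have h6 := hp.2.2.2
          have h7 : p.1.1 ^ 2 < p.1.2 := lt_of_le_of_ne h6 (Ne.symm h5)
          have := sq_nonneg (p.1.1 - f.1.1)
          omega
        · have : 0 < (p.1.1 - f.1.1) ^ 2 := by
            have : p.1.1 - f.1.1 ≠ 0 := sub_ne_zero.mpr h4
            positivity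
          have := hp.2.2.2
          omega
      have hR : (0:ℝ) < ((p.1.2:ℝ) - f.1.2) - 2 * f.1.1 * ((p.1.1:ℝ) - f.1.1) := by
        exact_mod_cast this
      exact hR
  have ev3 : ∀ᶠ ε in 𝓝[>] (0:ℝ), ∀ p r : {p // p ∈ Lam n}, (r.1.1 = p.1.1 ∧ r.1.2 = p.1.2 - 1) →
      0 < -(C * |(q ε r).1 - (q ε p).1|) - ((q ε r).2 - (q ε p).2) := by
    rw [eventually_all]; intro p
    rw [eventually_all]; intro r
    apply ev_imp
    rintro ⟨h1, h2⟩
    apply ev_pos
    · simp only [hq, qp]; fun_prop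
    · simp only [hq, qp, zero_mul, add_zero, h1, h2]
      push_cast
      simp
  have ev4 : ∀ᶠ ε in 𝓝[>] (0:ℝ), ∀ e f : {p // p ∈ Lam n},
      (e.1.2 = e.1.1 ^ 2 ∧ f.1.2 = f.1.1 ^ 2 ∧ f.1.1 = e.1.1 + 1) →
      0 < (q ε f).1 - (q ε e).1 := by
    rw [eventually_all]; intro e
    rw [eventually_all]; intro f
    apply ev_imp
    rintro ⟨h1, h2, h3⟩
    apply ev_pos
    · simp only [hq, qp]; fun_prop
    · simp only [hq, qp, zero_mul, add_zero, h3]
      push_cast
      simp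
  have ev5 : ∀ᶠ ε in 𝓝[>] (0:ℝ), ∀ e f : {p // p ∈ Lam n},
      (e.1.2 = e.1.1 ^ 2 ∧ f.1.2 = f.1.1 ^ 2 ∧ f.1.1 = e.1.1 + 1) →
      0 < (2 * n + 2) * ((q ε f).1 - (q ε e).1) - |(q ε f).2 - (q ε e).2| := by
    rw [eventually_all]; intro e
    rw [eventually_all]; intro f
    apply ev_imp
    rintro ⟨h1, h2, h3⟩
    apply ev_pos
    · simp only [hq, qp]; fun_prop
    · have he := mem_Lam.mp e.2
      have hf := mem_Lam.mp f.2
      simp only [hq, qp, zero_mul, add_zero, h2, h1, h3]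
      push_cast
      have e1 : ((e.1.1:ℝ) + 1) ^ 2 - (e.1.1:ℝ) ^ 2 = 2 * e.1.1 + 1 := by ring
      have e2 : (0:ℝ) ≤ e.1.1 := by exact_mod_cast he.1
      have e3 : (e.1.1:ℝ) + 1 ≤ n := by
        have := hf.2.1
        rw [h3] at this
        exact_mod_cast this
      rw [e1, abs_of_nonneg (by linarith)]
      linarith
  obtain ⟨ε, h1, h2, h3, h4, h5, hε⟩ :=
    (ev1.and (ev2.and (ev3.and (ev4.and (ev5.and ev_self))))).exists
  refine ⟨fun p => q ε p, ?_, ?_, ?_, ?_⟩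
  · intro f hf
    have hf' := (Finset.mem_filter.mp hf).2
    have hfm := mem_Lam.mp f.2
    refine ⟨2 * (f.1.1:ℝ), ?_, ?_⟩
    · have e2 : (0:ℝ) ≤ f.1.1 := by exact_mod_cast hfm.1
      have e3 : (f.1.1:ℝ) ≤ n := by exact_mod_cast hfm.2.1
      rw [abs_of_nonneg (by linarith)]
      linarith
    · intro a ha
      have := h2 f a ⟨hf', ha⟩
      linarith
  · intro a ha
    have ham := mem_Lam.mp a.2
    have hne : a.1.2 ≠ a.1.1 ^ 2 := by
      intro h
      apply ha
      simp [F0, h]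
    have hlt : a.1.1 ^ 2 < a.1.2 := lt_of_le_of_ne ham.2.2.2 (Ne.symm hne)
    refine ⟨⟨(a.1.1, a.1.2 - 1), ?_⟩, ?_⟩
    · rw [mem_Lam]
      simp only
      refine ⟨ham.1, ham.2.1, by omega, by omega⟩
    · have := h3 a ⟨(a.1.1, a.1.2 - 1), by
        rw [mem_Lam]; simp only; exact ⟨ham.1, ham.2.1, by omega, by omega⟩⟩ ⟨rfl, rfl⟩
      linarith
  · intro e he
    have he' := (Finset.mem_filter.mp he).2
    refine ⟨?_, ?_, ?_⟩
    · have := h4 e.1 e.2 he'
      linarith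
    · have := h5 e.1 e.2 he'
      linarith
    · intro a ha1 ha2
      apply h1
      obtain ⟨g1, g2, g3⟩ := he'
      have ham := mem_Lam.mp a.2
      unfold oriZ
      rw [g1, g2, g3]
      have e1 : (e.1.1.1 + 1 - e.1.1.1) * (a.1.2 - e.1.1.1 ^ 2) -
          ((e.1.1.1 + 1) ^ 2 - e.1.1.1 ^ 2) * (a.1.1 - e.1.1.1) =
          (a.1.2 - a.1.1 ^ 2) + (a.1.1 - e.1.1.1) * (a.1.1 - e.1.1.1 - 1) := by ring
      rw [e1]
      have h6 := ham.2.2.2
      rcases lt_trichotomy (a.1.1 - e.1.1.1) 0 with h7 | h7 | h7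
      · have : 0 < (a.1.1 - e.1.1.1) * (a.1.1 - e.1.1.1 - 1) :=
          mul_pos_of_neg_of_neg h7 (by omega)
        omega
      · rw [h7]
        have h8 : a.1.1 = e.1.1.1 := by omega
        have : a.1.2 ≠ a.1.1 ^ 2 := by
          intro h9
          apply ha1
          apply Subtype.ext
          ext
          · exact h8
          · rw [h9, g1, h8]
        have : a.1.1 ^ 2 < a.1.2 := lt_of_le_of_ne h6 (Ne.symm this)
        omega
      · rcases eq_or_lt_of_le (show 1 ≤ a.1.1 - e.1.1.1 by omega) with h8 | h8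
        · rw [← h8]
          have h9 : a.1.1 = e.1.1.1 + 1 := by omega
          have : a.1.2 ≠ a.1.1 ^ 2 := by
            intro h10
            apply ha2
            apply Subtype.ext
            ext
            · rw [h9, g3]
            · rw [h10, g2, h9, g3]
          have : a.1.1 ^ 2 < a.1.2 := lt_of_le_of_ne h6 (Ne.symm this)
          omega
        · have : 0 < (a.1.1 - e.1.1.1) * (a.1.1 - e.1.1.1 - 1) :=
            mul_pos h7 (by omega)
          omega
  · intro X hX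
    have hmap : (X.map (Function.Embedding.subtype _)).card = X.card := Finset.card_map _
    rw [← hmap]
    apply base_hole (n := n) (L := L) (by omega) hδ hδL hε
    · intro p hp r hr t ht hprt
      exact h1 ⟨p, hp⟩ ⟨r, hr⟩ ⟨t, ht⟩ hprt
    · intro p hp
      obtain ⟨p', _, rfl⟩ := Finset.mem_map.mp hp
      exact p'.2
    · intro a ha b hb c hc d hd s
      obtain ⟨a', ha', rfl⟩ := Finset.mem_map.mp ha
      obtain ⟨b', hb', rfl⟩ := Finset.mem_map.mp hb
      obtain ⟨c', hc', rfl⟩ := Finset.mem_map.mp hc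
      exact triFree_sign hX ha' hb' hc' ⟨d, hd⟩ s

end Pool.Agent.Helper46.Holes
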