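import Pool.Agent.Helper46.Holes.Defs
import Pool.Agent.Helper46.Holes.ArrMany

/-!
# From index families to point sets in general position
-/

namespace Pool.Agent.Helper46.Holes

open Filter Topology

theorem quad_ne (A B V : ℝ) (hV : V ≠ 0) : ∀ᶠ t in 𝓝[>] (0:ℝ), A + t * B + t ^ 2 * V ≠ 0 := by
  by_cases hA : A = 0
  · by_cases hB : B = 0
    · filter_upwards [ev_self] with t ht
      rw [hA, hB]
      have : t ^ 2 * V ≠ 0 := mul_ne_zero (by positivity) hV
      simpa using this
    · have h1 : ∀ᶠ t in 𝓝[>] (0:ℝ), B + t * V ≠ 0 := by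
        apply ev_ne
        · fun_prop
        · simpa using hB
      filter_upwards [h1, ev_self] with t h2 h3
      have : t * (B + t * V) ≠ 0 := mul_ne_zero h3.ne' h2
      rw [hA]
      intro h
      apply this
      linarith
  · apply ev_ne
    · fun_prop
    · simpa using hA

theorem perturb {K : Type} [Fintype K] (z : K → ℝ × ℝ) :
    ∃ z' : K → ℝ × ℝ, Function.Injective z' ∧
      (∀ a b c, a ≠ b → a ≠ c → b ≠ c → ori (z' a) (z' b) (z' c) ≠ 0) ∧
      (∀ a b c d, InTri (z a) (z b) (z c) (z d) → InTri (z' a) (z' b) (z' c) (z' d)) ∧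
      (∀ X : Finset K, HoleLike z X → HoleLike z' X) := by
  classical
  set c : K → ℝ := fun a => ((Fintype.equivFin K a).val : ℝ) with hc
  have hcinj : ∀ a b, a ≠ b → c a ≠ c b := by
    intro a b hab h
    apply hab
    simp only [hc, Nat.cast_inj] at h
    exact (Fintype.equivFin K).injective (Fin.ext h)
  set w : ℝ → K → ℝ × ℝ := fun t a => ((z a).1 + t * c a, (z a).2 + t * c a ^ 2) with hw
  have hw0 : ∀ a, w 0 a = z a := by intro a; simp [hw]
  have ev1 : ∀ᶠ t in 𝓝[>] (0:ℝ), ∀ a b : K, a ≠ b → (w t a).1 ≠ (w t b).1 := by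
    rw [eventually_all]; intro a
    rw [eventually_all]; intro b
    apply ev_imp
    intro hab
    by_cases h0 : (z a).1 - (z b).1 = 0
    · filter_upwards [ev_self] with t ht h
      simp only [hw] at h
      have : t * (c a - c b) = 0 := by linarith
      rcases mul_eq_zero.mp this with h1 | h1
      · exact ht.ne' h1
      · exact hcinj a b hab (sub_eq_zero.mp h1)
    · have h1 : ∀ᶠ t in 𝓝[>] (0:ℝ), ((z a).1 + t * c a) - ((z b).1 + t * c b) ≠ 0 := by
        apply ev_ne
        · fun_prop
        · simpa using h0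
      filter_upwards [h1] with t h2 h3
      apply h2
      simp only [hw] at h3
      linarith
  have ev2 : ∀ᶠ t in 𝓝[>] (0:ℝ), ∀ a b d : K, (a ≠ b ∧ a ≠ d ∧ b ≠ d) →
      ori (w t a) (w t b) (w t d) ≠ 0 := by
    rw [eventually_all]; intro a
    rw [eventually_all]; intro b
    rw [eventually_all]; intro d
    apply ev_imp
    rintro ⟨h1, h2, h3⟩
    have hV : (c b - c a) * (c d - c a) * (c d - c b) ≠ 0 := by
      refine mul_ne_zero (mul_ne_zero ?_ ?_) ?_
      · exact sub_ne_zero.mpr (hcinj b a h1.symm)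
      · exact sub_ne_zero.mpr (hcinj d a h2.symm)
      · exact sub_ne_zero.mpr (hcinj d b h3.symm)
    filter_upwards [quad_ne (ori (z a) (z b) (z d)) (((z b).1 - (z a).1) * (c d ^ 2 - c a ^ 2) +
      (c b - c a) * ((z d).2 - (z a).2) - ((z b).2 - (z a).2) * (c d - c a) -
      (c b ^ 2 - c a ^ 2) * ((z d).1 - (z a).1)) _ hV] with t ht
    intro h
    apply ht
    rw [← h]
    simp only [hw, ori]
    ring
  have ev3 : ∀ᶠ t in 𝓝[>] (0:ℝ), ∀ a b d e : K, InTri (z a) (z b) (z d) (z e) →
      InTri (w t a) (w t b) (w t d) (w t e) := by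
    rw [eventually_all]; intro a
    rw [eventually_all]; intro b
    rw [eventually_all]; intro d
    rw [eventually_all]; intro e
    apply ev_imp
    rintro ⟨h1, h2, h3⟩
    refine (ev_pos ?_ ?_).and ((ev_pos ?_ ?_).and (ev_pos ?_ ?_))
    · simp only [ori, hw]; fun_prop
    · simp only [hw0]; exact h1
    · simp only [ori, hw]; fun_prop
    · simp only [hw0]; exact h2
    · simp only [ori, hw]; fun_prop
    · simp only [hw0]; exact h3
  have ev4 : ∀ᶠ t in 𝓝[>] (0:ℝ), ∀ X : Finset K, HoleLike z X → HoleLike (w t) X := by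
    rw [eventually_all]; intro X
    apply ev_imp
    intro hX
    choose α β hαβ using hX
    have h1 : ∀ᶠ t in 𝓝[>] (0:ℝ), ∀ p y : K, (y ∈ X ∧ y ≠ p) →
        0 < α p * ((w t y).1 - (w t p).1) + β p * ((w t y).2 - (w t p).2) := by
      rw [eventually_all]; intro p
      rw [eventually_all]; intro y
      apply ev_imp
      rintro ⟨h1, h2⟩
      apply ev_pos
      · simp only [hw]; fun_prop
      · simp only [hw0]; exact hαβ p y h1 h2
    filter_upwards [h1] with t ht
    intro p
    exact ⟨α p, β p, fun y hy hyp => ht p y ⟨hy, hyp⟩⟩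
  obtain ⟨t, h1, h2, h3, h4⟩ := (ev1.and (ev2.and (ev3.and ev4))).exists
  refine ⟨w t, ?_, ?_, h3, h4⟩
  · intro a b hab
    by_contra hne
    exact h1 a b hne (by rw [hab])
  · intro a b d hab had hbd
    exact h2 a b d ⟨hab, had, hbd⟩

theorem ori_of_collinear {a b c : ℝ × ℝ} (h : Collinear ℝ {a, b, c}) : ori a b c = 0 := by
  rw [collinear_iff_of_mem (p₀ := a) (by simp)] at h
  obtain ⟨v, hv⟩ := h
  obtain ⟨r, hr⟩ := hv b (by simp)
  obtain ⟨s, hs⟩ := hv c (by simp)
  have b1 : b.1 - a.1 = r * v.1 := by rw [hr]; simp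
  have b2 : b.2 - a.2 = r * v.2 := by rw [hr]; simp
  have c1 : c.1 - a.1 = s * v.1 := by rw [hs]; simp
  have c2 : c.2 - a.2 = s * v.2 := by rw [hs]; simp
  unfold ori
  rw [b1, b2, c1, c2]
  ring

theorem inTri_mem {a b c p : ℝ × ℝ} (h : InTri a b c p) {S : Set (ℝ × ℝ)} (hS : Convex ℝ S)
    (ha : a ∈ S) (hb : b ∈ S) (hc : c ∈ S) : p ∈ S := by
  obtain ⟨h1, h2, h3⟩ := h
  set D := ori a b p + ori b c p + ori c a p with hD
  have hDpos : 0 < D := by positivity
  have := hS.sum_mem (t := (Finset.univ : Finset (Fin 3)))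
    (w := ![ori b c p / D, ori c a p / D, ori a b p / D]) (z := ![a, b, c]) (by
      intro i _
      fin_cases i <;> simp <;> positivity) (by
      simp only [Fin.sum_univ_three, Matrix.cons_val_zero, Matrix.cons_val_one,
        Matrix.cons_val]
      field_simp
      rw [hD]; ring) (by
      intro i _
      fin_cases i <;> simp [ha, hb, hc])
  have e : (∑ i : Fin 3, (![ori b c p / D, ori c a p / D, ori a b p / D] i) • (![a, b, c] i)) = p := by
    simp only [Fin.sum_univ_three, Matrix.cons_val_zero, Matrix.cons_val_one,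
        Matrix.cons_val]
    have hD' : D = ori a b c := by rw [hD]; unfold ori; ring
    ext
    · simp only [Prod.fst_add, Prod.smul_fst, smul_eq_mul]
      field_simp
      rw [hD']
      unfold ori
      ring
    · simp only [Prod.snd_add, Prod.smul_snd, smul_eq_mul]
      field_simp
      rw [hD']
      unfold ori
      ring
  rw [e] at this
  exact this

theorem inTri_interior {a b c p : ℝ × ℝ} (h : InTri a b c p) {S : Set (ℝ × ℝ)} (hS : Convex ℝ S)
    (ha : a ∈ S) (hb : b ∈ S) (hc : c ∈ S) : p ∈ interior S := by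
  rw [mem_interior]
  refine ⟨{q | InTri a b c q}, fun q hq => inTri_mem hq hS ha hb hc, ?_, h⟩
  have h1 : Continuous (fun q => ori a b q) := by unfold ori; fun_prop
  have h2 : Continuous (fun q => ori b c q) := by unfold ori; fun_prop
  have h3 : Continuous (fun q => ori c a q) := by unfold ori; fun_prop
  exact (isOpen_lt continuous_const h1).inter
    ((isOpen_lt continuous_const h2).inter (isOpen_lt continuous_const h3))

end Pool.Agent.Helper46.Holes
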