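import Pool.Agent.Helper46.Holes.Convert

/-!
# Lower bound for `hMax` from an index family
-/

namespace Pool.Agent.Helper46.Holes

theorem numHoles_set_subset (P : Finset (ℝ × ℝ)) (k : ℕ) :
    {X : Finset (ℝ × ℝ) | IsHole P k X} ⊆ (P.powerset : Set (Finset (ℝ × ℝ))) := by
  intro X hX
  rw [Finset.mem_coe, Finset.mem_powerset]
  exact hX.1

theorem numHoles_le (P : Finset (ℝ × ℝ)) (k : ℕ) : numHoles P k ≤ 2 ^ P.card := by
  unfold numHoles
  calc _ ≤ (P.powerset : Set (Finset (ℝ × ℝ))).ncard :=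
        Set.ncard_le_ncard (numHoles_set_subset P k) (Finset.finite_toSet _)
    _ = 2 ^ P.card := by rw [Set.ncard_coe_finset, Finset.card_powerset]

theorem hMax_bdd (k n : ℕ) : BddAbove {N : ℕ | ∃ P : Finset (ℝ × ℝ), GeneralPosition P ∧
    P.card ≤ n ∧ (∀ X, ¬ IsHole P (k + 1) X) ∧ numHoles P k = N} := by
  refine ⟨2 ^ n, ?_⟩
  rintro N ⟨P, _, h2, _, rfl⟩
  exact (numHoles_le P k).trans (Nat.pow_le_pow_right (by norm_num) h2)

theorem le_hMax {k n : ℕ} {P : Finset (ℝ × ℝ)} (h1 : GeneralPosition P) (h2 : P.card ≤ n)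
    (h3 : ∀ X, ¬ IsHole P (k + 1) X) : numHoles P k ≤ hMax k n :=
  le_csSup (hMax_bdd k n) ⟨P, h1, h2, h3, rfl⟩

theorem halfspace_convex (x : ℝ × ℝ) (α β : ℝ) :
    Convex ℝ {q : ℝ × ℝ | 0 < α * (q.1 - x.1) + β * (q.2 - x.2)} := by
  intro p hp q hq a b ha hb hab
  simp only [Set.mem_setOf_eq] at *
  have e : α * ((a • p + b • q).1 - x.1) + β * ((a • p + b • q).2 - x.2) =
      a * (α * (p.1 - x.1) + β * (p.2 - x.2)) + b * (α * (q.1 - x.1) + β * (q.2 - x.2)) := by
    simp only [Prod.fst_add, Prod.smul_fst, Prod.snd_add, Prod.smul_snd, smul_eq_mul]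
    linear_combination (-(α * x.1) - β * x.2) * (1 - hab)
  rw [e]
  rcases eq_or_lt_of_le ha with h | h
  · have : b = 1 := by linarith
    rw [← h, this]; linarith
  · have := mul_pos h hp
    have := mul_nonneg hb hq.le
    linarith

theorem halfspace_convex' (x : ℝ × ℝ) (α β : ℝ) :
    Convex ℝ {q : ℝ × ℝ | 0 ≤ α * (q.1 - x.1) + β * (q.2 - x.2)} := by
  intro p hp q hq a b ha hb hab
  simp only [Set.mem_setOf_eq] at *
  have e : α * ((a • p + b • q).1 - x.1) + β * ((a • p + b • q).2 - x.2) =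
      a * (α * (p.1 - x.1) + β * (p.2 - x.2)) + b * (α * (q.1 - x.1) + β * (q.2 - x.2)) := by
    simp only [Prod.fst_add, Prod.smul_fst, Prod.snd_add, Prod.smul_snd, smul_eq_mul]
    linear_combination (-(α * x.1) - β * x.2) * (1 - hab)
  rw [e]
  positivity

theorem not_interior_halfspace {x : ℝ × ℝ} {α β : ℝ} (h : α ≠ 0 ∨ β ≠ 0) {S : Set (ℝ × ℝ)}
    (hS : S ⊆ {q : ℝ × ℝ | 0 ≤ α * (q.1 - x.1) + β * (q.2 - x.2)}) : x ∉ interior S := by
  intro hx
  have h1 : ∀ᶠ t in nhds (0:ℝ), ((x.1 - t * α, x.2 - t * β) : ℝ × ℝ) ∈ S := by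
    have hc : Continuous (fun t : ℝ => ((x.1 - t * α, x.2 - t * β) : ℝ × ℝ)) := by fun_prop
    have h2 : (fun t : ℝ => ((x.1 - t * α, x.2 - t * β) : ℝ × ℝ)) 0 = x := by simp
    have h3 : S ∈ nhds ((fun t : ℝ => ((x.1 - t * α, x.2 - t * β) : ℝ × ℝ)) 0) := by
      rw [h2]; exact mem_interior_iff_mem_nhds.mp hx
    exact hc.continuousAt h3
  have h2 : ∀ᶠ t in nhdsWithin (0:ℝ) (Set.Ioi 0), ((x.1 - t * α, x.2 - t * β) : ℝ × ℝ) ∈ S :=
    h1.filter_mono nhdsWithin_le_nhds
  obtain ⟨t, h3, h4⟩ := (h2.and ev_self).exists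
  have h5 := hS h3
  simp only [Set.mem_setOf_eq] at h5
  have h6 : 0 < α ^ 2 + β ^ 2 := by
    rcases h with h | h
    · have : 0 < α ^ 2 := by positivity
      have := sq_nonneg β
      linarith
    · have : 0 < β ^ 2 := by positivity
      have := sq_nonneg α
      linarith
  have h7 : 0 < t * (α ^ 2 + β ^ 2) := mul_pos h4 h6
  linarith

theorem hMax_ge {K : Type} [Fintype K] {k n N : ℕ} (hk : 2 ≤ k) (Z : K → ℝ × ℝ)
    (XX : Finset (Finset K)) (hn : Fintype.card K ≤ n)
    (h1 : ∀ X : Finset K, TriFree Z X → X.card ≤ k)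
    (h2 : ∀ X ∈ XX, X.card = k ∧ HoleLike Z X) (hN : N ≤ XX.card) : N ≤ hMax k n := by
  classical
  obtain ⟨z, hinj, hgen, htri, hhole⟩ := perturb Z
  set P : Finset (ℝ × ℝ) := Finset.univ.image z with hP
  have hzP : ∀ i, z i ∈ P := fun i => Finset.mem_image_of_mem z (Finset.mem_univ i)
  have hPcard : P.card ≤ n := by
    rw [hP]
    exact Finset.card_image_le.trans (by rwa [Finset.card_univ])
  have hGP : GeneralPosition P := by
    intro a ha b hb c hc hab hac hbc hcol
    obtain ⟨i, _, rfl⟩ := Finset.mem_image.mp ha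
    obtain ⟨j, _, rfl⟩ := Finset.mem_image.mp hb
    obtain ⟨l, _, rfl⟩ := Finset.mem_image.mp hc
    exact hgen i j l (fun h => hab (by rw [h])) (fun h => hac (by rw [h]))
      (fun h => hbc (by rw [h])) (ori_of_collinear hcol)
  have hno : ∀ X, ¬ IsHole P (k + 1) X := by
    rintro X ⟨hX1, hX2, _, hX4⟩
    set Y : Finset K := Finset.univ.filter (fun i => z i ∈ X) with hY
    have hYX : Y.image z = X := by
      ext p
      rw [Finset.mem_image]
      constructor
      · rintro ⟨i, hi, rfl⟩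
        exact (Finset.mem_filter.mp hi).2
      · intro hp
        obtain ⟨i, _, rfl⟩ := Finset.mem_image.mp (hX1 hp)
        exact ⟨i, Finset.mem_filter.mpr ⟨Finset.mem_univ _, hp⟩, rfl⟩
    have hYc : Y.card = k + 1 := by
      rw [← hX2, ← hYX, Finset.card_image_of_injective _ hinj]
    have hTF : TriFree Z Y := by
      intro a ha b hb c hc d hin
      have hin' := htri a b c d hin
      have hmem : ∀ i ∈ Y, z i ∈ convexHull ℝ (X : Set (ℝ × ℝ)) := by
        intro i hi
        apply subset_convexHull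
        exact (Finset.mem_filter.mp hi).2
      have hint := inTri_interior hin' (convex_convexHull ℝ (X : Set (ℝ × ℝ))) (hmem a ha)
        (hmem b hb) (hmem c hc)
      exact Set.disjoint_left.mp hX4 hint (hzP d)
    have := h1 Y hTF
    omega
  have hcount : XX.card ≤ numHoles P k := by
    have hsub : ((XX.image (fun Y => Y.image z) : Finset (Finset (ℝ × ℝ))) :
        Set (Finset (ℝ × ℝ))) ⊆ {X : Finset (ℝ × ℝ) | IsHole P k X} := by
      intro X hX
      rw [Finset.mem_coe] at hX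
      obtain ⟨Y, hY, rfl⟩ := Finset.mem_image.mp hX
      obtain ⟨hc, hhl⟩ := h2 Y hY
      have hhl' := hhole Y hhl
      refine ⟨?_, ?_, ?_, ?_⟩
      · intro p hp
        obtain ⟨i, _, rfl⟩ := Finset.mem_image.mp hp
        exact hzP i
      · rw [Finset.card_image_of_injective _ hinj, hc]
      · rw [convexIndependent_set_iff_notMem_convexHull_sdiff]
        intro x hx hmem
        rw [Finset.mem_coe] at hx
        obtain ⟨i, hi, rfl⟩ := Finset.mem_image.mp hx
        obtain ⟨α, β, hαβ⟩ := hhl' i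
        have hsub : convexHull ℝ (((Y.image z : Finset (ℝ × ℝ)) : Set (ℝ × ℝ)) \ {z i}) ⊆
            {q : ℝ × ℝ | 0 < α * (q.1 - (z i).1) + β * (q.2 - (z i).2)} := by
          apply convexHull_min _ (halfspace_convex _ _ _)
          rintro q ⟨hq1, hq2⟩
          rw [Finset.mem_coe] at hq1
          obtain ⟨j, hj, rfl⟩ := Finset.mem_image.mp hq1
          exact hαβ j hj (fun h => hq2 (by rw [h]; rfl))
        have := hsub hmem
        simp at this
      · rw [Set.disjoint_left]
        intro p hp hpP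
        rw [Finset.mem_coe] at hpP
        obtain ⟨i, _, rfl⟩ := Finset.mem_image.mp hpP
        obtain ⟨α, β, hαβ⟩ := hhl' i
        revert hp
        apply not_interior_halfspace (α := α) (β := β)
        · -- nontrivial functional
          obtain ⟨j, hj, hji⟩ : ∃ j ∈ Y, j ≠ i := by
            by_contra hcon
            push Not at hcon
            have : Y ⊆ {i} := fun j hj => Finset.mem_singleton.mpr (hcon j hj)
            have := Finset.card_le_card this
            rw [Finset.card_singleton] at this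
            omega
          have h3 := hαβ j hj hji
          by_contra hcon
          push Not at hcon
          rw [hcon.1, hcon.2] at h3
          simp at h3
        · apply convexHull_min _ (halfspace_convex' _ _ _)
          intro q hq
          rw [Finset.mem_coe] at hq
          obtain ⟨j, hj, rfl⟩ := Finset.mem_image.mp hq
          by_cases hji : j = i
          · rw [hji]; simp
          · exact (hαβ j hj hji).le
    have hcard : (XX.image (fun Y => Y.image z)).card = XX.card :=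
      Finset.card_image_of_injective _ (Finset.image_injective hinj)
    rw [← hcard, ← Set.ncard_coe_finset]
    exact Set.ncard_le_ncard hsub ((Finset.finite_toSet _).subset (numHoles_set_subset P k))
  exact hN.trans (hcount.trans (le_hMax hGP hPcard hno))

/-- The main finite bound. -/
theorem hMax_ge_pow {m r B e1 e2 : ℕ} (hm : 1 ≤ m) (hr : 1 ≤ r) (hB : 1 ≤ B) (he1 : 27 ^ r ≤ e1)
    (he2 : 27 ^ r ≤ e2) {n : ℕ}
    (hn : (e1 + B + e2) + B * ((r + 1) * ((m + 1) ^ r * (m ^ 2 + 1))) ≤ n) :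
    m ^ (r * B) ≤ hMax (e1 + 2 * B + e2) n := by
  obtain ⟨ι, _, F, E, z, h1, _, h3, h4, ⟨p0⟩⟩ := iter_cluster hm r (2 * ((e1 + B + e2 : ℕ) : ℝ))
  obtain ⟨K, _, Z, XX, g1, g2, g3, g4⟩ :=
    arrange h1 e1 B e2 he1 he2 (Nat.one_le_pow _ _ (by norm_num)) le_rfl p0
  refine hMax_ge (by omega) Z XX ?_ g2 g3 ?_
  · refine g1.trans (le_trans ?_ hn)
    exact Nat.add_le_add_left (Nat.mul_le_mul_left _ h3) _
  · rw [pow_mul]
    exact (Nat.pow_le_pow_left (h4 hr) B).trans g4

end Pool.Agent.Helper46.Holes
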