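import Mathlib

/-!
# Holes of planar point sets, and the extremal function `h_k(n)`

The plane is `ℝ × ℝ`; only its affine structure and its usual topology are used.
-/

namespace Pool.Agent.Helper46.Holes

/-- A finite planar point set is in general position if no three of its points are collinear. -/
def GeneralPosition (P : Finset (ℝ × ℝ)) : Prop :=
  ∀ a ∈ P, ∀ b ∈ P, ∀ c ∈ P, a ≠ b → a ≠ c → b ≠ c → ¬ Collinear ℝ {a, b, c}

/-- `X ⊆ P` is a `k`-hole of `P`: it has `k` points, they are in convex position, and no point of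
`P` lies in the interior of the convex hull of `X`. -/
def IsHole (P : Finset (ℝ × ℝ)) (k : ℕ) (X : Finset (ℝ × ℝ)) : Prop :=
  X ⊆ P ∧ X.card = k ∧ ConvexIndependent ℝ ((↑) : ↥(X : Set (ℝ × ℝ)) → ℝ × ℝ) ∧
    Disjoint (interior (convexHull ℝ (X : Set (ℝ × ℝ)))) (P : Set (ℝ × ℝ))

/-- The number of `k`-holes of `P`. -/
noncomputable def numHoles (P : Finset (ℝ × ℝ)) (k : ℕ) : ℕ :=
  {X : Finset (ℝ × ℝ) | IsHole P k X}.ncard

/-- `h_k(n)`: the largest number of `k`-holes of a set of at most `n` points in general position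
that has no `(k+1)`-hole. -/
noncomputable def hMax (k n : ℕ) : ℕ :=
  sSup {N : ℕ | ∃ P : Finset (ℝ × ℝ), GeneralPosition P ∧ P.card ≤ n ∧
    (∀ X, ¬ IsHole P (k + 1) X) ∧ numHoles P k = N}

end Pool.Agent.Helper46.Holes
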