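import Pool.Agent.Helper46.Holes.Count

/-!
# Growth of `h_k(n)` and the failure of the bound `O(n^{⌈k/3⌉})`
-/

namespace Pool.Agent.Helper46.Holes

open Filter Topology

theorem size_bound {m r B e : ℕ} (hm : 1 ≤ m) :
    e + B * ((r + 1) * ((m + 1) ^ r * (m ^ 2 + 1))) ≤
      (e + B * ((r + 1) * 2 ^ (r + 1))) * m ^ (r + 2) := by
  have h1 : (m + 1) ^ r ≤ (2 * m) ^ r := Nat.pow_le_pow_left (by omega) r
  have h2 : m ^ 2 + 1 ≤ 2 * m ^ 2 := by nlinarith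
  have h3 : (m + 1) ^ r * (m ^ 2 + 1) ≤ 2 ^ (r + 1) * m ^ (r + 2) := by
    calc (m + 1) ^ r * (m ^ 2 + 1) ≤ (2 * m) ^ r * (2 * m ^ 2) := Nat.mul_le_mul h1 h2
      _ = 2 ^ (r + 1) * m ^ (r + 2) := by rw [mul_pow]; ring
  have h4 : 1 ≤ m ^ (r + 2) := Nat.one_le_pow _ _ hm
  calc e + B * ((r + 1) * ((m + 1) ^ r * (m ^ 2 + 1)))
      ≤ e * m ^ (r + 2) + B * ((r + 1) * (2 ^ (r + 1) * m ^ (r + 2))) := by
        apply Nat.add_le_add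
        · nlinarith
        · exact Nat.mul_le_mul_left _ (Nat.mul_le_mul_left _ h3)
    _ = (e + B * ((r + 1) * 2 ^ (r + 1))) * m ^ (r + 2) := by ring

theorem growth_aux {r B e1 e2 : ℕ} (hr : 1 ≤ r) (hB : 1 ≤ B) (he1 : 27 ^ r ≤ e1)
    (he2 : 27 ^ r ≤ e2) :
    ∃ c : ℝ, 0 < c ∧ ∃ n0 : ℕ, ∀ n ≥ n0,
      c * (n : ℝ) ^ (((r * B : ℕ) : ℝ) / ((r + 2 : ℕ) : ℝ)) ≤ hMax (e1 + 2 * B + e2) n := by
  set A : ℕ := (e1 + B + e2) + B * ((r + 1) * 2 ^ (r + 1)) with hA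
  have hApos : 0 < A := by omega
  have hAR : (0:ℝ) < A := by exact_mod_cast hApos
  set x : ℝ := ((r * B : ℕ) : ℝ) / ((r + 2 : ℕ) : ℝ) with hx
  refine ⟨(1/2) ^ (r * B) * (1 / (A:ℝ)) ^ x, by positivity, A, ?_⟩
  intro n hn
  have hnR : (A:ℝ) ≤ n := by exact_mod_cast hn
  have hnpos : (0:ℝ) < n := lt_of_lt_of_le hAR hnR
  have hdiv : 1 ≤ (n:ℝ) / A := by rw [le_div_iff₀ hAR]; linarith
  set y : ℝ := ((n:ℝ) / A) ^ (1 / ((r + 2 : ℕ) : ℝ)) with hy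
  have hy1 : 1 ≤ y := Real.one_le_rpow hdiv (by positivity)
  have hy0 : 0 ≤ y := by linarith
  set m : ℕ := ⌊y⌋₊ with hm
  have hm1 : 1 ≤ m := by
    rw [hm]; exact Nat.le_floor (by simpa using hy1)
  have hmy : (m:ℝ) ≤ y := Nat.floor_le hy0
  have hym : y ≤ 2 * m := by
    have h1 : y < m + 1 := Nat.lt_floor_add_one y
    have h2 : (1:ℝ) ≤ m := by exact_mod_cast hm1
    linarith
  have hypow : y ^ (r + 2) = (n:ℝ) / A := by
    rw [hy, ← Real.rpow_natCast, ← Real.rpow_mul (by positivity)]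
    rw [one_div, inv_mul_cancel₀ (by positivity), Real.rpow_one]
  have hAm : A * m ^ (r + 2) ≤ n := by
    have h1 : (m:ℝ) ^ (r + 2) ≤ (n:ℝ) / A := by
      rw [← hypow]; exact pow_le_pow_left₀ (by positivity) hmy _
    have h2 : (A:ℝ) * (m:ℝ) ^ (r + 2) ≤ n := by
      rw [le_div_iff₀ hAR] at h1; linarith
    exact_mod_cast h2
  have key := hMax_ge_pow (n := n) hm1 hr hB he1 he2 ((size_bound hm1).trans hAm)
  have key' : ((m:ℝ) ^ (r * B)) ≤ hMax (e1 + 2 * B + e2) n := by exact_mod_cast key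
  refine le_trans ?_ key'
  have h1 : (1 / (A:ℝ)) ^ x * (n:ℝ) ^ x = y ^ (r * B) := by
    rw [← Real.mul_rpow (by positivity) (by positivity)]
    rw [hy, ← Real.rpow_natCast, ← Real.rpow_mul (by positivity)]
    congr 1
    · ring
    · rw [hx]; ring
  calc (1/2) ^ (r * B) * (1 / (A:ℝ)) ^ x * (n:ℝ) ^ x = (1/2) ^ (r * B) * y ^ (r * B) := by
        rw [mul_assoc, h1]
    _ = (1/2 * y) ^ (r * B) := by rw [mul_pow]
    _ ≤ (m:ℝ) ^ (r * B) := pow_le_pow_left₀ (by positivity) (by linarith) _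

theorem growth {ε : ℝ} (hε : 0 < ε) : ∃ k0 : ℕ, ∀ k ≥ k0, ∃ c : ℝ, 0 < c ∧ ∃ n0 : ℕ, ∀ n ≥ n0,
    c * (n : ℝ) ^ ((1/2 - ε) * k) ≤ hMax k n := by
  set ε' := min ε 1 with hε'
  have hε'pos : 0 < ε' := lt_min hε one_pos
  have hε'1 : ε' ≤ 1 := min_le_right _ _
  have hε'ε : ε' ≤ ε := min_le_left _ _
  set r : ℕ := ⌈2 / ε'⌉₊ with hr
  have hr2 : 2 / ε' ≤ (r:ℝ) := Nat.le_ceil _
  have hrε : 2 ≤ ε' * r := by
    rw [div_le_iff₀ hε'pos] at hr2; linarith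
  have hr1 : 1 ≤ r := by
    rw [hr]; exact Nat.one_le_iff_ne_zero.mpr (by positivity)
  set M : ℕ := 27 ^ r with hM
  have hM1 : 1 ≤ M := Nat.one_le_pow _ _ (by norm_num)
  refine ⟨2 * M + 3 + ⌈((2 * M + 1 : ℕ) : ℝ) / ε'⌉₊, ?_⟩
  intro k hk
  have hk1 : 2 * M + 3 ≤ k := by omega
  have hk2 : ((2 * M + 1 : ℕ) : ℝ) ≤ ε' * k := by
    have h1 : ((2 * M + 1 : ℕ) : ℝ) / ε' ≤ k := by
      refine (Nat.le_ceil _).trans ?_
      exact_mod_cast (by omega : ⌈((2 * M + 1 : ℕ) : ℝ) / ε'⌉₊ ≤ k)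
    rw [div_le_iff₀ hε'pos] at h1
    linarith
  obtain ⟨B, hB⟩ : ∃ B, B = (k - 2 * M) / 2 := ⟨_, rfl⟩
  obtain ⟨e2, he2⟩ : ∃ e2, e2 = k - M - 2 * B := ⟨_, rfl⟩
  have hkB : k = M + 2 * B + e2 := by omega
  have hB1 : 1 ≤ B := by omega
  have he2M : M ≤ e2 := by omega
  obtain ⟨c, hc, n0, hn0⟩ := growth_aux (r := r) (B := B) (e1 := M) (e2 := e2) hr1 hB1 le_rfl he2M
  refine ⟨c, hc, max n0 1, ?_⟩
  intro n hn
  have hn1 : (1:ℝ) ≤ n := by exact_mod_cast le_trans (le_max_right _ _) hn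
  have h1 := hn0 n (le_trans (le_max_left _ _) hn)
  rw [← hkB] at h1
  refine le_trans ?_ h1
  apply mul_le_mul_of_nonneg_left _ hc.le
  apply Real.rpow_le_rpow_of_exponent_le hn1
  have hkR : (0:ℝ) ≤ k := Nat.cast_nonneg _
  have hBR : ((k:ℝ) - 2 * M - 1) / 2 ≤ B := by
    have h2 : k ≤ 2 * B + 2 * M + 1 := by omega
    have h3 : (k:ℝ) ≤ 2 * B + 2 * M + 1 := by exact_mod_cast h2
    linarith
  have hratio : (1 - ε') ≤ (r:ℝ) / (r + 2) := by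
    rw [le_div_iff₀ (by positivity)]
    nlinarith
  push_cast at hk2 ⊢
  calc (1 / 2 - ε) * (k:ℝ) ≤ (1/2 - ε') * k := mul_le_mul_of_nonneg_right (by linarith) hkR
    _ ≤ (1 - ε') * (((k:ℝ) - 2 * M - 1) / 2) := by nlinarith
    _ ≤ (1 - ε') * B := mul_le_mul_of_nonneg_left hBR (by linarith)
    _ ≤ (r:ℝ) / (r + 2) * B := mul_le_mul_of_nonneg_right hratio (Nat.cast_nonneg _)
    _ = (r:ℝ) * B / (r + 2) := by ring

theorem unbounded : ∃ k0 : ℕ, ∀ k ≥ k0, ∀ C : ℝ, ∃ n : ℕ, 1 ≤ n ∧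
    C * (n : ℝ) ^ ⌈(k : ℝ) / 3⌉₊ < hMax k n := by
  obtain ⟨k0, hk0⟩ := growth (show (0:ℝ) < 1/12 by norm_num)
  refine ⟨max k0 13, ?_⟩
  intro k hk C
  obtain ⟨c, hc, n0, hn0⟩ := hk0 k (le_trans (le_max_left _ _) hk)
  have hk13 : (13:ℝ) ≤ k := by exact_mod_cast le_trans (le_max_right _ _) hk
  set b : ℕ := ⌈(k : ℝ) / 3⌉₊ with hb
  have hbR : (b:ℝ) < (k:ℝ) / 3 + 1 := Nat.ceil_lt_add_one (by positivity)
  set a : ℝ := (1/2 - 1/12) * k with ha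
  have hab : 0 < a - b := by
    rw [ha]; linarith
  have htend : Tendsto (fun n : ℕ => c * (n:ℝ) ^ (a - b)) atTop atTop :=
    Tendsto.const_mul_atTop hc ((tendsto_rpow_atTop hab).comp tendsto_natCast_atTop_atTop)
  obtain ⟨n, hn1, hn2, hn3⟩ := ((htend.eventually_gt_atTop C).and
    ((eventually_ge_atTop n0).and (eventually_ge_atTop 1))).exists
  refine ⟨n, hn3, ?_⟩
  have hnpos : (0:ℝ) < n := by exact_mod_cast hn3
  refine lt_of_lt_of_le ?_ (hn0 n hn2)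
  have e : (n:ℝ) ^ a = (n:ℝ) ^ (a - b) * (n:ℝ) ^ b := by
    rw [← Real.rpow_natCast, ← Real.rpow_add hnpos]
    congr 1
    ring
  rw [e, ← mul_assoc]
  exact mul_lt_mul_of_pos_right hn1 (by positivity)

end Pool.Agent.Helper46.Holes
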