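import Mathlib

/-!
# Horton functions on the integers

A function `g : ℤ → ℝ` is a *Horton function* of level `L` when the two residue classes modulo `2`
have values close to two different levels and, after rescaling, each class is a Horton function of
level `L - 1`.  Here we bound sets of integers that are open or free for such a function.
-/

namespace Pool.Agent.Helper46.Holes

/-- Orientation of the three points `(x, g x), (y, g y), (k, g k)`. -/
def o3 (g : ℤ → ℝ) (x y k : ℤ) : ℝ :=
  ((y:ℝ) - x) * (g k - g x) - (g y - g x) * ((k:ℝ) - x)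

/-- Horton functions of level `L` with contraction `δ`. -/
def HF (δ : ℝ) : ℕ → (ℤ → ℝ) → Prop
  | 0, g => ∀ k, |g k| ≤ 6
  | (L+1), g => ∃ (w : ℤ → ℝ) (G : ℤ → ℤ → ℝ), 1 ≤ |w 0 - w 1| ∧ (∀ c, |w c| ≤ 3) ∧
      (∀ c, HF δ L (G c)) ∧ ∀ k, g k = w (k % 2) + δ * G (k % 2) (k / 2)

theorem HF.bound {δ : ℝ} (hδ : 0 ≤ δ) (hδ' : δ ≤ 1/100) :
    ∀ (L : ℕ) (g : ℤ → ℝ), HF δ L g → ∀ k, |g k| ≤ 6
  | 0, _, h, k => h k
  | (L+1), g, h, k => by
      obtain ⟨w, G, _, h2, h3, h4⟩ := h
      have h5 := HF.bound hδ hδ' L (G (k % 2)) (h3 _) (k / 2)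
      have h6 := h2 (k % 2)
      rw [h4 k]
      rw [abs_le] at *
      constructor <;> nlinarith

theorem HF.neg {δ : ℝ} : ∀ (L : ℕ) (g : ℤ → ℝ), HF δ L g → HF δ L (fun k => - g k)
  | 0, _, h => fun k => by simpa using h k
  | (L+1), g, h => by
      obtain ⟨w, G, h1, h2, h3, h4⟩ := h
      refine ⟨fun c => - w c, fun c k => - G c k, ?_, ?_, ?_, ?_⟩
      · rw [show - w 0 - - w 1 = -(w 0 - w 1) by ring, abs_neg]; exact h1
      · intro c; rw [abs_neg]; exact h2 c
      · intro c; exact HF.neg L (G c) (h3 c)
      · intro k; show - g k = - w (k % 2) + δ * (- G (k % 2) (k / 2)); rw [h4 k]; ring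

/-- `S` is open upwards: no point of the graph lies above a chord over `S`. -/
def OpenUp (g : ℤ → ℝ) (S : Finset ℤ) : Prop :=
  ∀ x ∈ S, ∀ y ∈ S, ∀ k, x < k → k < y → o3 g x y k ≤ 0

/-- `S` is triangle-free for the graph of `g`, with test points inside the range of `S`. -/
def LineFree (g : ℤ → ℝ) (S : Finset ℤ) : Prop :=
  ∀ x ∈ S, ∀ y ∈ S, ∀ t ∈ S, ∀ k, (∃ a ∈ S, a ≤ k) → (∃ b ∈ S, k ≤ b) →
    ¬ (0 < o3 g x y k ∧ 0 < o3 g y t k ∧ 0 < o3 g t x k)

/-- Structural facts of a level `L + 1` Horton function, in a convenient form. -/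
theorem HF.step {δ : ℝ} {L : ℕ} {g : ℤ → ℝ} (hδ : 0 < δ) (hδ' : 100 * 2 ^ (L+1) * δ ≤ 1)
    (h : HF δ (L+1) g) :
    ∃ (lo hi : ℤ) (G : ℤ → ℤ → ℝ), (∀ k : ℤ, k % 2 = lo ∨ k % 2 = hi) ∧
      (∀ k : ℤ, k % 2 = lo → (k + 1) % 2 = hi) ∧ (lo ≠ hi) ∧
      (∀ x y : ℤ, x % 2 = y % 2 → |g x - g y| ≤ 12 * δ) ∧
      (∀ x y : ℤ, x % 2 = lo → y % 2 = hi → 1 - 12 * δ ≤ g y - g x) ∧
      (∀ c, HF δ L (G c)) ∧
      (∀ x y k : ℤ, x % 2 = y % 2 → x % 2 = k % 2 →
        o3 g x y k = 2 * δ * o3 (G (x % 2)) (x / 2) (y / 2) (k / 2)) := by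
  obtain ⟨w, G, h1, h2, h3, h4⟩ := h
  have hp : (1:ℝ) ≤ 2 ^ (L+1) := one_le_pow₀ (by norm_num)
  have hδ1 : δ ≤ 1/100 := by nlinarith
  have hb : ∀ c k, |G c k| ≤ 6 := fun c k => HF.bound hδ.le hδ1 L (G c) (h3 c) k
  have key1 : ∀ x y : ℤ, x % 2 = y % 2 → |g x - g y| ≤ 12 * δ := by
    intro x y hxy
    rw [h4 x, h4 y, ← hxy]
    have a1 := abs_le.mp (hb (x % 2) (x / 2))
    have a2 := abs_le.mp (hb (x % 2) (y / 2))
    rw [abs_le]
    constructor <;> nlinarith
  have key2 : ∀ a b : ℤ, w a + 1 ≤ w b → ∀ x y : ℤ, x % 2 = a → y % 2 = b →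
      1 - 12 * δ ≤ g y - g x := by
    intro a b hab x y hx hy
    rw [h4 x, h4 y, hx, hy]
    have a1 := abs_le.mp (hb a (x / 2))
    have a2 := abs_le.mp (hb b (y / 2))
    nlinarith
  have key3 : ∀ x y k : ℤ, x % 2 = y % 2 → x % 2 = k % 2 →
        o3 g x y k = 2 * δ * o3 (G (x % 2)) (x / 2) (y / 2) (k / 2) := by
    intro x y k hxy hxk
    have ex : (x:ℝ) = 2 * ((x / 2 : ℤ) : ℝ) + ((x % 2 : ℤ) : ℝ) := by
      exact_mod_cast (Int.mul_ediv_add_emod x 2).symm
    have ey : (y:ℝ) = 2 * ((y / 2 : ℤ) : ℝ) + ((x % 2 : ℤ) : ℝ) := by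
      rw [hxy]; exact_mod_cast (Int.mul_ediv_add_emod y 2).symm
    have ek : (k:ℝ) = 2 * ((k / 2 : ℤ) : ℝ) + ((x % 2 : ℤ) : ℝ) := by
      rw [hxk]; exact_mod_cast (Int.mul_ediv_add_emod k 2).symm
    unfold o3
    rw [h4 x, h4 y, h4 k, ← hxy, ← hxk, ex, ey, ek]
    ring
  rcases le_or_gt (w 0) (w 1) with hw | hw
  · have hw1 : w 0 + 1 ≤ w 1 := by
      rw [abs_of_nonpos (by linarith)] at h1; linarith
    exact ⟨0, 1, G, fun k => by omega, fun k => by omega, by norm_num, key1, key2 0 1 hw1, h3, key3⟩
  · have hw1 : w 1 + 1 ≤ w 0 := by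
      rw [abs_of_pos (by linarith)] at h1; linarith
    exact ⟨1, 0, G, fun k => by omega, fun k => by omega, by norm_num, key1, key2 1 0 hw1, h3, key3⟩

theorem half_image_card {S : Finset ℤ} {c : ℤ} (hS : ∀ x ∈ S, x % 2 = c) :
    (S.image (fun x => x / 2)).card = S.card := by
  apply Finset.card_image_of_injOn
  intro x hx y hy hxy
  have h1 := hS x hx
  have h2 := hS y hy
  simp only at hxy
  omega

theorem openUp_card {δ : ℝ} (hδ : 0 < δ) :
    ∀ (L : ℕ) (g : ℤ → ℝ) (S : Finset ℤ), 100 * 2 ^ L * δ ≤ 1 → HF δ L g → OpenUp g S →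
      (∀ x ∈ S, ∀ y ∈ S, y - x < 2 ^ L) → S.card ≤ 3
  | 0, g, S, _, _, _, hd => by
      have : S.card ≤ 1 := by
        rw [Finset.card_le_one]
        intro a ha b hb
        have h1 := hd a ha b hb
        have h2 := hd b hb a ha
        norm_num at h1 h2
        omega
      omega
  | (L+1), g, S, hδ', h, hS, hd => by
      obtain ⟨lo, hi, G, hc, hc1, hne, hs, hh, hG, ho⟩ := HF.step hδ hδ' h
      have hp : (1:ℝ) ≤ 2 ^ L := one_le_pow₀ (by norm_num)
      have hp2 : (2:ℝ) ^ (L+1) = 2 * 2 ^ L := by ring
      have hδ1 : δ ≤ 1/200 := by nlinarith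
      have hdR : ∀ x ∈ S, ∀ y ∈ S, ((y:ℝ) - x) * (12 * δ) ≤ 0.12 := by
        intro x hx y hy
        have h1 : ((y:ℝ) - x) ≤ 2 ^ (L+1) := by
          have := hd x hx y hy
          exact_mod_cast this.le
        nlinarith
      by_cases hlo : ∃ l ∈ S, l % 2 = lo
      · obtain ⟨l, hlS, hl⟩ := hlo
        have c1 : (S.filter (fun x => x % 2 = lo)).card ≤ 1 := by
          rw [Finset.card_le_one]
          have key : ∀ a ∈ S, ∀ b ∈ S, a % 2 = lo → b % 2 = lo → a < b → False := by
            intro a ha b hb ha2 hb2 hab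
            have h1 := hS a ha b hb (a+1) (by omega) (by omega)
            have h2 := hh a (a+1) ha2 (hc1 a ha2)
            have h3 := abs_le.mp (hs b a (by rw [ha2, hb2]))
            have h4 : (2:ℝ) ≤ (b:ℝ) - a := by
              have : (2:ℤ) ≤ b - a := by omega
              exact_mod_cast this
            unfold o3 at h1
            push_cast at h1
            nlinarith
          intro a ha b hb
          simp only [Finset.mem_filter] at ha hb
          rcases lt_trichotomy a b with hab | hab | hab
          · exact (key a ha.1 b hb.1 ha.2 hb.2 hab).elim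
          · exact hab
          · exact (key b hb.1 a ha.1 hb.2 ha.2 hab).elim
        have c2 : (S.filter (fun x => x % 2 = hi ∧ l < x)).card ≤ 1 := by
          rw [Finset.card_le_one]
          have key : ∀ a ∈ S, ∀ b ∈ S, a % 2 = hi → b % 2 = hi → l < a → a < b → False := by
            intro a ha b hb ha2 hb2 hla hab
            have h1 := hS l hlS b hb a hla hab
            have h2 := hh l a hl ha2
            have h3 := abs_le.mp (hs a b (by rw [ha2, hb2]))
            have h4 : (2:ℝ) ≤ (b:ℝ) - a := by
              have : (2:ℤ) ≤ b - a := by omega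
              exact_mod_cast this
            have h5 := hdR l hlS a ha
            have h6 : (0:ℝ) < (a:ℝ) - l := by
              have : (0:ℤ) < a - l := by omega
              exact_mod_cast this
            have e : o3 g l b a = ((b:ℝ) - a) * (g a - g l) + ((a:ℝ) - l) * (g a - g b) := by
              unfold o3; ring
            rw [e] at h1
            nlinarith
          intro a ha b hb
          simp only [Finset.mem_filter] at ha hb
          rcases lt_trichotomy a b with hab | hab | hab
          · exact (key a ha.1 b hb.1 ha.2.1 hb.2.1 ha.2.2 hab).elim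
          · exact hab
          · exact (key b hb.1 a ha.1 hb.2.1 ha.2.1 hb.2.2 hab).elim
        have c3 : (S.filter (fun x => x % 2 = hi ∧ x < l)).card ≤ 1 := by
          rw [Finset.card_le_one]
          have key : ∀ a ∈ S, ∀ b ∈ S, a % 2 = hi → b % 2 = hi → b < l → a < b → False := by
            intro a ha b hb ha2 hb2 hla hab
            have h1 := hS a ha l hlS b hab hla
            have h2 := hh l a hl ha2
            have h3 := abs_le.mp (hs a b (by rw [ha2, hb2]))
            have h4 : (2:ℝ) ≤ (b:ℝ) - a := by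
              have : (2:ℤ) ≤ b - a := by omega
              exact_mod_cast this
            have h5 := hdR a ha l hlS
            have h6 : (0:ℝ) < (l:ℝ) - a := by
              have : (0:ℤ) < l - a := by omega
              exact_mod_cast this
            have e : o3 g a l b = ((b:ℝ) - a) * (g a - g l) + ((l:ℝ) - a) * (g b - g a) := by
              unfold o3; ring
            rw [e] at h1
            nlinarith
          intro a ha b hb
          simp only [Finset.mem_filter] at ha hb
          rcases lt_trichotomy a b with hab | hab | hab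
          · exact (key a ha.1 b hb.1 ha.2.1 hb.2.1 hb.2.2 hab).elim
          · exact hab
          · exact (key b hb.1 a ha.1 hb.2.1 ha.2.1 ha.2.2 hab).elim
        have hsub : S ⊆ S.filter (fun x => x % 2 = lo) ∪ (S.filter (fun x => x % 2 = hi ∧ l < x) ∪
            S.filter (fun x => x % 2 = hi ∧ x < l)) := by
          intro x hx
          simp only [Finset.mem_union, Finset.mem_filter]
          rcases hc x with h1 | h1
          · left; exact ⟨hx, h1⟩
          · right
            rcases lt_trichotomy x l with h2 | h2 | h2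
            · right; exact ⟨hx, h1, h2⟩
            · exfalso; apply hne; rw [← hl, ← h1, h2]
            · left; exact ⟨hx, h1, h2⟩
        calc S.card ≤ _ := Finset.card_le_card hsub
          _ ≤ _ := Finset.card_union_le _ _
          _ ≤ 1 + (1 + 1) := by
              refine Nat.add_le_add c1 ?_
              exact (Finset.card_union_le _ _).trans (Nat.add_le_add c2 c3)
      · have hall : ∀ x ∈ S, x % 2 = hi := by
          intro x hx
          rcases hc x with h1 | h1
          · exact (hlo ⟨x, hx, h1⟩).elim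
          · exact h1
        rw [← half_image_card hall]
        apply openUp_card hδ L (G hi) _ (by nlinarith) (hG hi)
        · intro x hx y hy k hxk hky
          simp only [Finset.mem_image] at hx hy
          obtain ⟨x', hx', rfl⟩ := hx
          obtain ⟨y', hy', rfl⟩ := hy
          have a1 := hall x' hx'
          have a2 := hall y' hy'
          have hi2 : hi = 0 ∨ hi = 1 := by omega
          have hk : (2 * k + hi) % 2 = hi := by omega
          have hk2 : (2 * k + hi) / 2 = k := by omega
          have h1 := hS x' hx' y' hy' (2 * k + hi) (by omega) (by omega)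
          have h2 := ho x' y' (2 * k + hi) (by rw [a1, a2]) (by rw [a1, hk])
          rw [h2, a1, hk2] at h1
          by_contra hcon
          push Not at hcon
          have : 0 < 2 * δ * o3 (G hi) (x' / 2) (y' / 2) k := by positivity
          linarith
        · intro x hx y hy
          simp only [Finset.mem_image] at hx hy
          obtain ⟨x', hx', rfl⟩ := hx
          obtain ⟨y', hy', rfl⟩ := hy
          have a1 := hall x' hx'
          have a2 := hall y' hy'
          have := hd x' hx' y' hy'
          rw [pow_succ] at this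
          omega

theorem o3_swap (g : ℤ → ℝ) (x y k : ℤ) : o3 g y x k = - o3 g x y k := by
  unfold o3; ring

theorem o3_rot (g : ℤ → ℝ) (x y k : ℤ) : o3 g y k x = o3 g x y k := by
  unfold o3; ring

theorem o3_neg (g : ℤ → ℝ) (x y k : ℤ) : o3 (fun k => - g k) x y k = - o3 g x y k := by
  unfold o3; ring

theorem lineFree_card {δ : ℝ} (hδ : 0 < δ) :
    ∀ (L : ℕ) (g : ℤ → ℝ) (S : Finset ℤ), 100 * 2 ^ L * δ ≤ 1 → HF δ L g → LineFree g S →
      (∀ x ∈ S, ∀ y ∈ S, y - x < 2 ^ L) → S.card ≤ 6
  | 0, g, S, _, _, _, hd => by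
      have : S.card ≤ 1 := by
        rw [Finset.card_le_one]
        intro a ha b hb
        have h1 := hd a ha b hb
        have h2 := hd b hb a ha
        norm_num at h1 h2
        omega
      omega
  | (L+1), g, S, hδ', h, hS, hd => by
      obtain ⟨lo, hi, G, hc, hc1, hne, hs, hh, hG, ho⟩ := HF.step hδ hδ' h
      have hp : (1:ℝ) ≤ 2 ^ L := one_le_pow₀ (by norm_num)
      have hp2 : (2:ℝ) ^ (L+1) = 2 * 2 ^ L := by ring
      have hδ1 : δ ≤ 1/200 := by nlinarith
      have hdR : ∀ x ∈ S, ∀ y ∈ S, |(y:ℝ) - x| * (12 * δ) ≤ 0.12 := by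
        intro x hx y hy
        have h1 : |(y:ℝ) - x| ≤ 2 ^ (L+1) := by
          have h1 := hd x hx y hy
          have h2 := hd y hy x hx
          rw [abs_le]
          constructor
          · have : ((x:ℝ) - y) ≤ 2 ^ (L+1) := by exact_mod_cast h2.le
            linarith
          · exact_mod_cast h1.le
        nlinarith
      -- the recursion when only one class is present
      have rec1 : ∀ c, (∀ x ∈ S, x % 2 = c) → S.card ≤ 6 := by
        intro c hall
        by_cases hem : S.Nonempty
        swap
        · rw [Finset.not_nonempty_iff_eq_empty] at hem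
          simp [hem]
        rw [← half_image_card hall]
        have hc2 : c = 0 ∨ c = 1 := by
          obtain ⟨x, hx⟩ := hem
          have := hall x hx
          omega
        apply lineFree_card hδ L (G c) _ (by nlinarith) (hG c)
        · intro x hx y hy t ht k ⟨a, ha, hak⟩ ⟨b, hb, hkb⟩ ⟨o1, o2, o3'⟩
          simp only [Finset.mem_image] at hx hy ht ha hb
          obtain ⟨x', hx', rfl⟩ := hx
          obtain ⟨y', hy', rfl⟩ := hy
          obtain ⟨t', ht', rfl⟩ := ht
          obtain ⟨a', ha', rfl⟩ := ha
          obtain ⟨b', hb', rfl⟩ := hb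
          have a1 := hall x' hx'
          have a2 := hall y' hy'
          have a3 := hall t' ht'
          have a4 := hall a' ha'
          have a5 := hall b' hb'
          have hk : (2 * k + c) % 2 = c := by omega
          have hk2 : (2 * k + c) / 2 = k := by omega
          apply hS x' hx' y' hy' t' ht' (2 * k + c) ⟨a', ha', by omega⟩ ⟨b', hb', by omega⟩
          rw [ho x' y' (2*k+c) (by rw [a1, a2]) (by rw [a1, hk]),
            ho y' t' (2*k+c) (by rw [a2, a3]) (by rw [a2, hk]),
            ho t' x' (2*k+c) (by rw [a3, a1]) (by rw [a3, hk]), hk2, a1, a2, a3]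
          refine ⟨?_, ?_, ?_⟩ <;> positivity
        · intro x hx y hy
          simp only [Finset.mem_image] at hx hy
          obtain ⟨x', hx', rfl⟩ := hx
          obtain ⟨y', hy', rfl⟩ := hy
          have a1 := hall x' hx'
          have a2 := hall y' hy'
          have := hd x' hx' y' hy'
          rw [pow_succ] at this
          omega
      by_cases hlo : ∃ l ∈ S, l % 2 = lo
      swap
      · exact rec1 hi fun x hx => (hc x).resolve_left fun h1 => hlo ⟨x, hx, h1⟩
      by_cases hhi : ∃ l ∈ S, l % 2 = hi
      swap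
      · exact rec1 lo fun x hx => (hc x).resolve_right fun h1 => hhi ⟨x, hx, h1⟩
      obtain ⟨l, hlS, hl⟩ := hlo
      obtain ⟨u, huS, hu⟩ := hhi
      -- the two classes
      have d1 : ∀ c : ℤ, ∀ x ∈ (S.filter (fun x => x % 2 = c)).image (fun x => x / 2),
          ∀ y ∈ (S.filter (fun x => x % 2 = c)).image (fun x => x / 2), y - x < 2 ^ L := by
        intro c x hx y hy
        simp only [Finset.mem_image, Finset.mem_filter] at hx hy
        obtain ⟨x', ⟨hx', a1⟩, rfl⟩ := hx
        obtain ⟨y', ⟨hy', a2⟩, rfl⟩ := hy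
        have := hd x' hx' y' hy'
        rw [pow_succ] at this
        omega
      have cLo : (S.filter (fun x => x % 2 = lo)).card ≤ 3 := by
        rw [← half_image_card (c := lo) (S := S.filter (fun x => x % 2 = lo))
          (fun x hx => (Finset.mem_filter.mp hx).2)]
        apply openUp_card hδ L (G lo) _ (by nlinarith) (hG lo) _ (d1 lo)
        intro x hx y hy k hxk hky
        simp only [Finset.mem_image, Finset.mem_filter] at hx hy
        obtain ⟨x', ⟨hx', a1⟩, rfl⟩ := hx
        obtain ⟨y', ⟨hy', a2⟩, rfl⟩ := hy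
        have hlo2 : lo = 0 ∨ lo = 1 := by omega
        obtain ⟨K, hK⟩ : ∃ K, K = 2 * k + lo := ⟨_, rfl⟩
        have hk : K % 2 = lo := by omega
        have hk2 : K / 2 = k := by omega
        have h2 := ho x' y' K (by rw [a1, a2]) (by rw [a1, hk])
        rw [a1, hk2] at h2
        by_contra hcon
        push Not at hcon
        have h0 : 0 < o3 g x' y' K := by rw [h2]; positivity
        have b1 := hh x' u a1 hu
        have b2 := hh y' u a2 hu
        have b3 := abs_le.mp (hs K x' (by rw [a1, hk]))
        have b4 := abs_le.mp (hs K y' (by rw [a2, hk]))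
        have e1 := hdR x' hx' u huS
        have e2 := hdR y' hy' u huS
        have f1 : (2:ℝ) ≤ (K:ℝ) - x' := by
          have : (2:ℤ) ≤ K - x' := by omega
          exact_mod_cast this
        have f2 : (2:ℝ) ≤ (y':ℝ) - K := by
          have : (2:ℤ) ≤ y' - K := by omega
          exact_mod_cast this
        refine hS x' hx' y' hy' u huS K ⟨x', hx', by omega⟩ ⟨y', hy', by omega⟩ ⟨h0, ?_, ?_⟩
        · -- o3 y' u K
          have e : o3 g y' u K = ((y':ℝ) - K) * (g u - g y') + ((u:ℝ) - y') * (g K - g y') := by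
            unfold o3; ring
          have g1 : |((u:ℝ) - y') * (g K - g y')| ≤ |(u:ℝ) - y'| * (12 * δ) := by
            rw [abs_mul]
            exact mul_le_mul_of_nonneg_left (abs_le.mpr b4) (abs_nonneg _)
          have g2 := (abs_le.mp g1).1
          rw [e]
          nlinarith
        · have e : o3 g u x' K = ((K:ℝ) - x') * (g u - g x') - ((u:ℝ) - x') * (g K - g x') := by
            unfold o3; ring
          have g1 : |((u:ℝ) - x') * (g K - g x')| ≤ |(u:ℝ) - x'| * (12 * δ) := by
            rw [abs_mul]
            exact mul_le_mul_of_nonneg_left (abs_le.mpr b3) (abs_nonneg _)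
          have g2 := (abs_le.mp g1).2
          rw [e]
          nlinarith
      have cHi : (S.filter (fun x => x % 2 = hi)).card ≤ 3 := by
        rw [← half_image_card (c := hi) (S := S.filter (fun x => x % 2 = hi))
          (fun x hx => (Finset.mem_filter.mp hx).2)]
        apply openUp_card hδ L (fun k => - G hi k) _ (by nlinarith) (HF.neg L _ (hG hi)) _ (d1 hi)
        intro x hx y hy k hxk hky
        simp only [Finset.mem_image, Finset.mem_filter] at hx hy
        obtain ⟨x', ⟨hx', a1⟩, rfl⟩ := hx
        obtain ⟨y', ⟨hy', a2⟩, rfl⟩ := hy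
        have hhi2 : hi = 0 ∨ hi = 1 := by omega
        obtain ⟨K, hK⟩ : ∃ K, K = 2 * k + hi := ⟨_, rfl⟩
        have hk : K % 2 = hi := by omega
        have hk2 : K / 2 = k := by omega
        have h2 := ho x' y' K (by rw [a1, a2]) (by rw [a1, hk])
        rw [a1, hk2] at h2
        rw [o3_neg]
        by_contra hcon
        push Not at hcon
        have h0 : 0 < o3 g y' x' K := by
          rw [o3_swap, h2]
          have : 0 < δ * (- o3 (G hi) (x' / 2) (y' / 2) k) := by positivity
          linarith
        have b1 := hh l x' hl a1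
        have b2 := hh l y' hl a2
        have b3 := abs_le.mp (hs K x' (by rw [a1, hk]))
        have b4 := abs_le.mp (hs K y' (by rw [a2, hk]))
        have e1 := hdR x' hx' l hlS
        have e2 := hdR y' hy' l hlS
        have f1 : (2:ℝ) ≤ (K:ℝ) - x' := by
          have : (2:ℤ) ≤ K - x' := by omega
          exact_mod_cast this
        have f2 : (2:ℝ) ≤ (y':ℝ) - K := by
          have : (2:ℤ) ≤ y' - K := by omega
          exact_mod_cast this
        refine hS y' hy' x' hx' l hlS K ⟨x', hx', by omega⟩ ⟨y', hy', by omega⟩ ⟨h0, ?_, ?_⟩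
        · have e : o3 g x' l K = ((K:ℝ) - x') * (g x' - g l) + ((l:ℝ) - x') * (g K - g x') := by
            unfold o3; ring
          have g1 : |((l:ℝ) - x') * (g K - g x')| ≤ |(l:ℝ) - x'| * (12 * δ) := by
            rw [abs_mul]
            exact mul_le_mul_of_nonneg_left (abs_le.mpr b3) (abs_nonneg _)
          have g2 := (abs_le.mp g1).1
          rw [e]
          nlinarith
        · have e : o3 g l y' K = ((y':ℝ) - K) * (g y' - g l) - ((l:ℝ) - y') * (g K - g y') := by
            unfold o3; ring
          have g1 : |((l:ℝ) - y') * (g K - g y')| ≤ |(l:ℝ) - y'| * (12 * δ) := by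
            rw [abs_mul]
            exact mul_le_mul_of_nonneg_left (abs_le.mpr b4) (abs_nonneg _)
          have g2 := (abs_le.mp g1).2
          rw [e]
          nlinarith
      have hsub : S ⊆ S.filter (fun x => x % 2 = lo) ∪ S.filter (fun x => x % 2 = hi) := by
        intro x hx
        simp only [Finset.mem_union, Finset.mem_filter]
        rcases hc x with h1 | h1
        · left; exact ⟨hx, h1⟩
        · right; exact ⟨hx, h1⟩
      calc S.card ≤ _ := Finset.card_le_card hsub
        _ ≤ _ := Finset.card_union_le _ _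
        _ ≤ 3 + 3 := Nat.add_le_add cLo cHi

end Pool.Agent.Helper46.Holes
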