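import Pool.Agent.Helper46.Holes.Blow

/-!
# Iterated clusters
-/

namespace Pool.Agent.Helper46.Holes

theorem iter_cluster {m : ℕ} (hm : 1 ≤ m) :
    ∀ (j : ℕ) (C : ℝ), ∃ (ι : Type) (_ : Fintype ι) (F : Finset ι) (E : Finset (ι × ι))
      (z : ι → ℝ × ℝ), IsCluster z F E 1 C (27 ^ j) ∧ F.card = (m + 1) ^ j ∧
      Fintype.card ι ≤ (j + 1) * ((m + 1) ^ j * (m ^ 2 + 1)) ∧ (1 ≤ j → m ^ j ≤ E.card) ∧
      Nonempty ι
  | 0, C => by
      refine ⟨Unit, inferInstance, Finset.univ, ∅, fun _ => (0, 0), ⟨?_, ?_, ?_, ?_⟩, ?_, ?_, ?_, ?_⟩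
      · intro f _
        refine ⟨0, by simp, ?_⟩
        intro a ha
        exact absurd (Subsingleton.elim a f) ha
      · intro a ha
        exact absurd (Finset.mem_univ a) ha
      · intro e he
        simp at he
      · intro X _
        simpa using Finset.card_le_univ X
      · simp
      · simp
      · intro h; omega
      · exact ⟨()⟩
  | (j+1), C => by
      obtain ⟨J, _, F, E, q, h1, h2, h3, _, ⟨j0⟩⟩ := iter_cluster hm j C
      have h0 : ((0:ℤ), (0:ℤ)) ∈ Lam m := by
        rw [mem_Lam]; simp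
      obtain ⟨Z, hZ⟩ := substitute h1 (base_cluster m) (⟨(0, 0), h0⟩ : {p // p ∈ Lam m}) (by norm_num)
      refine ⟨KK F (⟨(0, 0), h0⟩ : {p // p ∈ Lam m}), inferInstance, FF F _ (F0 m), EE F _ (E0 m),
        Z, ?_, ?_, ?_, ?_, ?_⟩
      · rw [pow_succ]; exact hZ
      · rw [card_FF, card_F0, h2, pow_succ]
      · refine (card_KK F _).trans ?_
        rw [h2, Fintype.card_coe]
        calc Fintype.card J + (m + 1) ^ j * (Lam m).card
            ≤ (j + 1) * ((m + 1) ^ j * (m ^ 2 + 1)) + (m + 1) ^ j * ((m + 1) * (m ^ 2 + 1)) :=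
              Nat.add_le_add h3 (Nat.mul_le_mul_left _ (card_Lam m))
          _ ≤ (j + 1) * ((m + 1) ^ (j + 1) * (m ^ 2 + 1)) + (m + 1) ^ (j + 1) * (m ^ 2 + 1) := by
              apply Nat.add_le_add
              · apply Nat.mul_le_mul_left
                apply Nat.mul_le_mul_right
                exact Nat.pow_le_pow_right (by omega) (by omega)
              · rw [pow_succ]
                exact le_of_eq (by ring)
          _ = (j + 1 + 1) * ((m + 1) ^ (j + 1) * (m ^ 2 + 1)) := by ring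
      · intro _
        rw [card_EE, h2, pow_succ]
        exact Nat.mul_le_mul (Nat.pow_le_pow_left (by omega) _) (card_E0 m)
      · exact ⟨⟨(j0, ⟨(0, 0), h0⟩), Or.inr rfl⟩⟩

end Pool.Agent.Helper46.Holes
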