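import Pool.Agent.Helper46.Holes.Basic
import Pool.Agent.Helper46.Holes.Horton

/-!
# The base cluster: perturbed lattice points above a parabola
-/

namespace Pool.Agent.Helper46.Holes

open Filter Topology

/-- Hierarchical Horton weight on the lattice. -/
noncomputable def W (δ : ℝ) : ℕ → ℤ × ℤ → ℝ
  | 0, _ => 0
  | (L+1), p => ((p.1 % 2 + 2 * (p.2 % 2) : ℤ) : ℝ) + δ * W δ L (p.1 / 2, p.2 / 2)

theorem W_line (δ : ℝ) : ∀ (L : ℕ) (p v : ℤ × ℤ), (v.1 % 2 = 1 ∨ v.2 % 2 = 1) →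
    HF δ L (fun k => W δ L (p.1 + k * v.1, p.2 + k * v.2))
  | 0, p, v, _ => fun k => by simp [W]
  | (L+1), p, v, hv => by
      refine ⟨fun c => (((p.1 + c * v.1) % 2 + 2 * ((p.2 + c * v.2) % 2) : ℤ) : ℝ),
        fun c k => W δ L ((p.1 + c * v.1) / 2 + k * v.1, (p.2 + c * v.2) / 2 + k * v.2),
        ?_, ?_, ?_, ?_⟩
      · have h : (1:ℤ) ≤ |((p.1 + 0 * v.1) % 2 + 2 * ((p.2 + 0 * v.2) % 2)) -
            ((p.1 + 1 * v.1) % 2 + 2 * ((p.2 + 1 * v.2) % 2))| := by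
          apply Int.one_le_abs
          omega
        beta_reduce
        exact_mod_cast h
      · intro c
        have h : |((p.1 + c * v.1) % 2 + 2 * ((p.2 + c * v.2) % 2))| ≤ (3:ℤ) := by
          rw [abs_le]; constructor <;> omega
        beta_reduce
        exact_mod_cast h
      · intro c
        exact W_line δ L ((p.1 + c * v.1) / 2, (p.2 + c * v.2) / 2) v hv
      · intro k
        have e1 : ∀ a b : ℤ, (a + k * b) / 2 = (a + (k % 2) * b) / 2 + (k / 2) * b := by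
          intro a b
          rw [← Int.add_mul_ediv_right _ _ (by norm_num : (2:ℤ) ≠ 0)]
          congr 1
          have := Int.mul_ediv_add_emod k 2
          linear_combination (-b) * this
        have e2 : ∀ a b : ℤ, (a + k * b) % 2 = (a + (k % 2) * b) % 2 := by
          intro a b
          have h1 : a + k * b = (a + (k % 2) * b) + 2 * ((k / 2) * b) := by
            have := Int.mul_ediv_add_emod k 2
            linear_combination (-b) * this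
          rw [h1]; omega
        show W δ (L+1) (p.1 + k * v.1, p.2 + k * v.2) = _
        simp only [W]
        rw [e1, e1, e2, e2]

/-- The lattice points with `0 ≤ x ≤ n`, `x² ≤ y ≤ n²`. -/
noncomputable def Lam (n : ℕ) : Finset (ℤ × ℤ) :=
  ((Finset.Icc (0:ℤ) n) ×ˢ (Finset.Icc (0:ℤ) ((n:ℤ)^2))).filter (fun p => p.1 ^ 2 ≤ p.2)

theorem mem_Lam {n : ℕ} {p : ℤ × ℤ} :
    p ∈ Lam n ↔ 0 ≤ p.1 ∧ p.1 ≤ n ∧ p.2 ≤ (n:ℤ)^2 ∧ p.1 ^ 2 ≤ p.2 := by
  unfold Lam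
  simp only [Finset.mem_filter, Finset.mem_product, Finset.mem_Icc]
  constructor
  · rintro ⟨⟨⟨h1, h2⟩, h3, h4⟩, h5⟩
    exact ⟨h1, h2, h4, h5⟩
  · rintro ⟨h1, h2, h4, h5⟩
    exact ⟨⟨⟨h1, h2⟩, by nlinarith [sq_nonneg p.1], h4⟩, h5⟩

theorem card_Lam (n : ℕ) : (Lam n).card ≤ (n + 1) * (n ^ 2 + 1) := by
  unfold Lam
  refine (Finset.card_filter_le _ _).trans ?_
  rw [Finset.card_product]
  simp only [Int.card_Icc]
  have h1 : ((n:ℤ) + 1 - 0).toNat = n + 1 := by omega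
  have h2 : ((n:ℤ)^2 + 1 - 0).toNat = n ^ 2 + 1 := by
    have : ((n:ℤ)^2 + 1 - 0) = ((n^2+1 : ℕ) : ℤ) := by push_cast; ring
    rw [this, Int.toNat_natCast]
  rw [h1, h2]

/-- Integer orientation. -/
def oriZ (p r t : ℤ × ℤ) : ℤ := (r.1 - p.1) * (t.2 - p.2) - (r.2 - p.2) * (t.1 - p.1)

/-- The perturbed lattice point. -/
noncomputable def qp (δ : ℝ) (L : ℕ) (K : ℝ) (ε : ℝ) (p : ℤ × ℤ) : ℝ × ℝ :=
  ((p.1 : ℝ) + ε * W δ L p, (p.2 : ℝ) + ε * W δ L p * K)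

theorem ori_qp_zero (δ : ℝ) (L : ℕ) (K : ℝ) (p r t : ℤ × ℤ) :
    ori (qp δ L K 0 p) (qp δ L K 0 r) (qp δ L K 0 t) = oriZ p r t := by
  unfold ori qp oriZ
  push_cast
  simp

/-- Orientation along a lattice line. -/
theorem ori_qp_line (δ : ℝ) (L : ℕ) (K ε : ℝ) (p v : ℤ × ℤ) (x y k : ℤ) :
    ori (qp δ L K ε (p.1 + x * v.1, p.2 + x * v.2)) (qp δ L K ε (p.1 + y * v.1, p.2 + y * v.2))
      (qp δ L K ε (p.1 + k * v.1, p.2 + k * v.2)) =
      ε * ((v.1:ℝ) * K - v.2) * o3 (fun k => W δ L (p.1 + k * v.1, p.2 + k * v.2)) x y k := by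
  unfold ori qp o3
  push_cast
  ring

/-- Convexity of the lattice region along lines. -/
theorem Lam_convex {n : ℕ} {p v : ℤ × ℤ} {x y k : ℤ}
    (hx : (p.1 + x * v.1, p.2 + x * v.2) ∈ Lam n) (hy : (p.1 + y * v.1, p.2 + y * v.2) ∈ Lam n)
    (hxk : x ≤ k) (hky : k ≤ y) : (p.1 + k * v.1, p.2 + k * v.2) ∈ Lam n := by
  rcases eq_or_lt_of_le (hxk.trans hky) with hxy | hxy
  · have : k = x := by omega
    rw [this]; exact hx
  rw [mem_Lam] at *
  simp only at *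
  obtain ⟨a1, a2, a3, a4⟩ := hx
  obtain ⟨b1, b2, b3, b4⟩ := hy
  have hpos : 0 < y - x := by omega
  have hu : 0 ≤ y - k := by omega
  have hv : 0 ≤ k - x := by omega
  refine ⟨?_, ?_, ?_, ?_⟩
  · have h : 0 ≤ (y - x) * (p.1 + k * v.1) := by
      have e : (y - x) * (p.1 + k * v.1) =
        (y - k) * (p.1 + x * v.1) + (k - x) * (p.1 + y * v.1) := by ring
      rw [e]; positivity
    exact nonneg_of_mul_nonneg_right h hpos
  · have h : 0 ≤ (y - x) * (n - (p.1 + k * v.1)) := by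
      have e : (y - x) * (n - (p.1 + k * v.1)) =
        (y - k) * (n - (p.1 + x * v.1)) + (k - x) * (n - (p.1 + y * v.1)) := by ring
      rw [e]
      exact add_nonneg (mul_nonneg hu (by linarith)) (mul_nonneg hv (by linarith))
    have := nonneg_of_mul_nonneg_right h hpos
    linarith
  · have h : 0 ≤ (y - x) * ((n:ℤ)^2 - (p.2 + k * v.2)) := by
      have e : (y - x) * ((n:ℤ)^2 - (p.2 + k * v.2)) =
        (y - k) * ((n:ℤ)^2 - (p.2 + x * v.2)) + (k - x) * ((n:ℤ)^2 - (p.2 + y * v.2)) := by ring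
      rw [e]
      exact add_nonneg (mul_nonneg hu (by linarith)) (mul_nonneg hv (by linarith))
    have := nonneg_of_mul_nonneg_right h hpos
    linarith
  · have h : 0 ≤ (y - x) * ((p.2 + k * v.2) - (p.1 + k * v.1) ^ 2) := by
      have e : (y - x) * ((p.2 + k * v.2) - (p.1 + k * v.1) ^ 2) =
        (y - k) * ((p.2 + x * v.2) - (p.1 + x * v.1) ^ 2) +
        (k - x) * ((p.2 + y * v.2) - (p.1 + y * v.1) ^ 2) +
        (y - k) * (k - x) * (y - x) * v.1 ^ 2 := by ring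
      rw [e]
      have t1 := mul_nonneg hu (sub_nonneg.mpr a4)
      have t2 := mul_nonneg hv (sub_nonneg.mpr b4)
      have t3 : 0 ≤ (y - k) * (k - x) * (y - x) * v.1 ^ 2 := by positivity
      linarith
    have := nonneg_of_mul_nonneg_right h hpos
    linarith

theorem Lam_centroid {n : ℕ} {p r t : ℤ × ℤ} (hp : p ∈ Lam n) (hr : r ∈ Lam n) (ht : t ∈ Lam n)
    {g : ℤ × ℤ} (h1 : 3 * g.1 = p.1 + r.1 + t.1) (h2 : 3 * g.2 = p.2 + r.2 + t.2) :
    g ∈ Lam n := by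
  rw [mem_Lam] at *
  obtain ⟨a1, a2, a3, a4⟩ := hp
  obtain ⟨b1, b2, b3, b4⟩ := hr
  obtain ⟨c1, c2, c3, c4⟩ := ht
  refine ⟨by omega, by omega, by omega, ?_⟩
  have h3 : 9 * g.1 ^ 2 ≤ 9 * g.2 := by
    have e : 9 * g.1 ^ 2 = (p.1 + r.1 + t.1) ^ 2 := by rw [← h1]; ring
    have : 9 * g.2 = 3 * (p.2 + r.2 + t.2) := by rw [← h2]; ring
    rw [e, this]
    nlinarith [sq_nonneg (p.1 - r.1), sq_nonneg (p.1 - t.1), sq_nonneg (r.1 - t.1)]
  omega

/-- Primitive direction through two distinct lattice points. -/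
theorem prim_dir {p r : ℤ × ℤ} (h : p ≠ r) :
    ∃ (v : ℤ × ℤ) (a b d : ℤ), a * v.1 + b * v.2 = 1 ∧ 0 < d ∧ r.1 - p.1 = d * v.1 ∧
      r.2 - p.2 = d * v.2 := by
  have hne : Int.gcd (r.1 - p.1) (r.2 - p.2) ≠ 0 := by
    intro h0
    rw [Int.gcd_eq_zero_iff] at h0
    apply h
    ext <;> omega
  set d := Int.gcd (r.1 - p.1) (r.2 - p.2) with hd
  have hdpos : 0 < d := Nat.pos_of_ne_zero hne
  obtain ⟨v1, hv1⟩ : (d:ℤ) ∣ r.1 - p.1 := Int.gcd_dvd_left ..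
  obtain ⟨v2, hv2⟩ : (d:ℤ) ∣ r.2 - p.2 := Int.gcd_dvd_right ..
  have hb := Int.gcd_eq_gcd_ab (r.1 - p.1) (r.2 - p.2)
  rw [← hd] at hb
  refine ⟨(v1, v2), Int.gcdA (r.1 - p.1) (r.2 - p.2), Int.gcdB (r.1 - p.1) (r.2 - p.2), d, ?_,
    by exact_mod_cast hdpos, hv1, hv2⟩
  have hd0 : (d:ℤ) ≠ 0 := by exact_mod_cast hne
  apply mul_left_cancel₀ hd0
  simp only
  set A := Int.gcdA (r.1 - p.1) (r.2 - p.2)
  set B := Int.gcdB (r.1 - p.1) (r.2 - p.2)
  rw [hv1, hv2] at hb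
  linear_combination -hb

/-- Points with zero orientation lie on the lattice line. -/
theorem on_line {v w : ℤ × ℤ} {a b : ℤ} (h : a * v.1 + b * v.2 = 1)
    (hc : v.1 * w.2 - v.2 * w.1 = 0) :
    w.1 = (a * w.1 + b * w.2) * v.1 ∧ w.2 = (a * w.1 + b * w.2) * v.2 := by
  constructor
  · linear_combination (-w.1) * h - b * hc
  · linear_combination (-w.2) * h + a * hc

end Pool.Agent.Helper46.Holes
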